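import Pool.Agent.helper29.NS.Spec2

/-!
# NS: boundary points near a strictly convex boundary point (module CH)
-/

namespace NS

open MeasureTheory Filter Topology Set

/-- first rotated coordinate -/
noncomputable def CH_S (θ : ℝ) (c q : ℝ × ℝ) : ℝ :=
  (q.1 - c.1) * Real.cos θ + (q.2 - c.2) * Real.sin θ
/-- second rotated coordinate -/
noncomputable def CH_R (θ : ℝ) (c q : ℝ × ℝ) : ℝ :=
  -((q.1 - c.1) * Real.sin θ) + (q.2 - c.2) * Real.cos θ

theorem CH_pt (θ : ℝ) (c q : ℝ × ℝ) : pt θ c (CH_S θ c q) (CH_R θ c q) = q := by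
  have h := Real.sin_sq_add_cos_sq θ
  unfold pt CH_S CH_R
  apply Prod.ext
  · simp only
    linear_combination (q.1 - c.1) * h
  · simp only
    linear_combination (q.2 - c.2) * h

theorem CH_Spt (θ : ℝ) (c : ℝ × ℝ) (s r : ℝ) : CH_S θ c (pt θ c s r) = s := by
  have h := Real.sin_sq_add_cos_sq θ
  unfold pt CH_S
  simp only
  linear_combination s * h

theorem CH_Rpt (θ : ℝ) (c : ℝ × ℝ) (s r : ℝ) : CH_R θ c (pt θ c s r) = r := by
  have h := Real.sin_sq_add_cos_sq θ
  unfold pt CH_R
  simp only
  linear_combination r * h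

theorem CH_Sc (θ : ℝ) (c : ℝ × ℝ) : Continuous (CH_S θ c) := by
  unfold CH_S
  fun_prop

theorem CH_Rc (θ : ℝ) (c : ℝ × ℝ) : Continuous (CH_R θ c) := by
  unfold CH_R
  fun_prop

theorem CH_shift (θ : ℝ) (c : ℝ × ℝ) (s₀ r₀ s r : ℝ) :
    pt θ (pt θ c s₀ r₀) s r = pt θ c (s + s₀) (r₀ + r) := by
  unfold pt
  apply Prod.ext
  · simp only
    ring
  · simp only
    ring

theorem CH : CH_stmt := by
  intro Ω c θ δ f hΩ hC hf2
  have hfc : Continuous f := hC.smooth.continuous
  have hd1 : ContDiff ℝ 1 (deriv f) := by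
    have := (contDiff_succ_iff_deriv (n := 1)).1 (by rw [one_add_one_eq_two]; exact hC.smooth)
    exact this.2.2
  have hd2 : Continuous (deriv (deriv f)) := hd1.continuous_deriv (by norm_num)
  have hδ := hC.pos
  -- choice of η
  have e1 : ∀ᶠ s in 𝓝 (0 : ℝ), |f s| < δ / 2 := by
    have : ContinuousAt (fun s => |f s|) 0 := (continuous_abs.comp hfc).continuousAt
    refine this.eventually_lt continuousAt_const ?_
    simp only [hC.f0, abs_zero]
    positivity
  have e2 : ∀ᶠ s in 𝓝 (0 : ℝ), 0 < deriv (deriv f) s :=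
    continuousAt_const.eventually_lt hd2.continuousAt hf2
  obtain ⟨η₀, hη₀, hball⟩ := Metric.eventually_nhds_iff.1 (e1.and e2)
  set η := min η₀ (δ / 2) with hη
  have hηpos : 0 < η := lt_min hη₀ (by positivity)
  have hprop : ∀ s, |s| < η → |f s| < δ / 2 ∧ 0 < deriv (deriv f) s := by
    intro s hs
    exact hball (by rw [Real.dist_eq, sub_zero]; exact hs.trans_le (min_le_left _ _))
  have hηδ : η ≤ δ / 2 := min_le_right _ _
  refine ⟨η, hηpos, ?_, ?_⟩
  · refine ⟨{q | |CH_S θ c q| < η ∧ |CH_R θ c q| < δ}, ?_, ?_⟩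
    · have ho : IsOpen {q | |CH_S θ c q| < η ∧ |CH_R θ c q| < δ} :=
        (isOpen_lt (continuous_abs.comp (CH_Sc θ c)) continuous_const).inter
          (isOpen_lt (continuous_abs.comp (CH_Rc θ c)) continuous_const)
      refine ho.mem_nhds ⟨?_, ?_⟩
      · simpa [CH_S] using hηpos
      · simpa [CH_R] using hδ
    · rintro q ⟨hq, hqS, hqR⟩
      refine ⟨CH_S θ c q, hqS, ?_⟩
      have hqc : q ∈ closure Ω := frontier_subset_closure hq
      have hqn : q ∉ Ω := by
        rw [hΩ.frontier_eq] at hq
        exact hq.2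
      have hSδ : |CH_S θ c q| < δ := by linarith
      have h1 : ¬ f (CH_S θ c q) < CH_R θ c q := by
        intro h
        apply hqn
        have := (hC.graph _ _ hSδ hqR).2 h
        rwa [CH_pt] at this
      have h2 : ¬ CH_R θ c q < f (CH_S θ c q) := by
        intro h
        set W : Set (ℝ × ℝ) := {q | (|CH_S θ c q| < δ ∧ |CH_R θ c q| < δ) ∧ CH_R θ c q < f (CH_S θ c q)}
        have hW : IsOpen W := by
          refine ((isOpen_lt (continuous_abs.comp (CH_Sc θ c)) continuous_const).inter
            (isOpen_lt (continuous_abs.comp (CH_Rc θ c)) continuous_const)).inter ?_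
          exact isOpen_lt (CH_Rc θ c) (hfc.comp (CH_Sc θ c))
        have hqW : q ∈ W := ⟨⟨hSδ, hqR⟩, h⟩
        obtain ⟨y, hyW, hyΩ⟩ := mem_closure_iff.1 hqc W hW hqW
        obtain ⟨⟨y1, y2⟩, y3⟩ := hyW
        have := (hC.graph _ _ y1 y2).1 (by rw [CH_pt]; exact hyΩ)
        linarith
      have h3 : CH_R θ c q = f (CH_S θ c q) := le_antisymm (not_lt.1 h1) (not_lt.1 h2)
      rw [← h3, CH_pt]
  · intro s hs
    obtain ⟨hs1, hs2⟩ := hprop s hs
    have hsδ : |s| < δ / 2 := hs.trans_le hηδ
    constructor
    · rw [hΩ.frontier_eq]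
      constructor
      · -- limit of points of Ω
        have ht : Tendsto (fun e : ℝ => pt θ c s (f s + e)) (𝓝[>] 0) (𝓝 (pt θ c s (f s))) := by
          have hcont : Continuous (fun e : ℝ => pt θ c s (f s + e)) := by
            unfold pt
            fun_prop
          have := hcont.tendsto 0
          simp only [add_zero] at this
          exact this.mono_left nhdsWithin_le_nhds
        refine mem_closure_of_tendsto ht ?_
        have hlt : ∀ᶠ e : ℝ in 𝓝[>] 0, e < δ / 2 :=
          nhdsWithin_le_nhds (Iio_mem_nhds (by positivity))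
        filter_upwards [self_mem_nhdsWithin, hlt] with e he he2
        have he0 : 0 < e := he
        refine (hC.graph s (f s + e) (by linarith) ?_).2 (by linarith)
        rw [abs_lt] at hs1 ⊢
        constructor <;> linarith [hs1.1, hs1.2]
      · intro hmem
        have := (hC.graph s (f s) (by linarith) (by linarith)).1 hmem
        exact lt_irrefl _ this
    · refine ⟨θ, δ / 2, fun u => f (u + s) - f s, ⟨?_, ?_, ?_, ?_⟩, ?_⟩
      · exact (hC.smooth.comp (contDiff_id.add contDiff_const)).sub contDiff_const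
      · simp
      · positivity
      · intro u r hu hr
        rw [CH_shift]
        have h1 : |u + s| < δ := by
          have := abs_add_le u s
          linarith
        have h2 : |f s + r| < δ := by
          have := abs_add_le (f s) r
          linarith
        rw [hC.graph _ _ h1 h2]
        constructor <;> intro h <;> linarith
      · have h1 : deriv (fun u => f (u + s) - f s) = fun u => deriv f (u + s) := by
          funext u
          rw [deriv_sub_const, deriv_comp_add_const]
        rw [h1, deriv_comp_add_const, zero_add]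
        exact hs2

end NS
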