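import Pool.Agent.helper29.NS.Spec2

/-!
# NS: cutoff functions (module CO)
-/

namespace NS

open MeasureTheory Filter Topology Set

theorem CO_rh : ContDiff ℝ (⊤ : ℕ∞) rh := by
  unfold rh
  fun_prop

theorem CO : CO_stmt := by
  intro R1 R2 h1 h12
  have hR : 0 < R2 ^ 2 - R1 ^ 2 := by nlinarith
  have hR2 : 0 < R2 := h1.trans h12
  set A : ℝ × ℝ × ℝ → ℝ := fun z => Real.smoothTransition ((4 - z.1 ^ 2) / 3) with hA
  set B : ℝ × ℝ × ℝ → ℝ := fun z => Real.smoothTransition ((R2 ^ 2 - rh z) / (R2 ^ 2 - R1 ^ 2)) with hB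
  have cA : ContDiff ℝ (⊤ : ℕ∞) A := by
    refine Real.smoothTransition.contDiff.comp ?_
    fun_prop
  have cB : ContDiff ℝ (⊤ : ℕ∞) B := by
    refine Real.smoothTransition.contDiff.comp ?_
    exact (contDiff_const.sub CO_rh).div_const _
  have hsupp : ∀ z, A z * B z ≠ 0 → |z.1| ≤ 2 ∧ rh z ≤ R2 ^ 2 := by
    intro z hz
    constructor
    · by_contra hc
      push Not at hc
      apply hz
      have : (4 - z.1 ^ 2) / 3 ≤ 0 := by
        have : 4 < z.1 ^ 2 := by
          rw [← sq_abs]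
          nlinarith
        linarith
      rw [hA]
      simp only
      rw [Real.smoothTransition.zero_of_nonpos this, zero_mul]
    · by_contra hc
      push Not at hc
      apply hz
      have : (R2 ^ 2 - rh z) / (R2 ^ 2 - R1 ^ 2) ≤ 0 :=
        div_nonpos_of_nonpos_of_nonneg (by linarith) hR.le
      rw [hB]
      simp only
      rw [Real.smoothTransition.zero_of_nonpos this, mul_zero]
  refine ⟨fun z => A z * B z, cA.mul cB, ?_, ?_, ?_, hsupp⟩
  · refine HasCompactSupport.intro (isCompact_closedBall (0 : ℝ × ℝ × ℝ) (max 2 R2)) ?_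
    intro z hz
    by_contra hc
    obtain ⟨h3, h4⟩ := hsupp z hc
    apply hz
    unfold rh at h4
    have h5 : |z.2.1| ≤ R2 := abs_le_of_sq_le_sq (by nlinarith [sq_nonneg z.2.2]) hR2.le
    have h6 : |z.2.2| ≤ R2 := abs_le_of_sq_le_sq (by nlinarith [sq_nonneg z.2.1]) hR2.le
    rw [mem_closedBall_zero_iff, Prod.norm_def, Prod.norm_def]
    simp only [Real.norm_eq_abs]
    refine max_le (h3.trans (le_max_left _ _)) (max_le (h5.trans (le_max_right _ _)) (h6.trans (le_max_right _ _)))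
  · intro z
    have a1 := Real.smoothTransition.nonneg ((4 - z.1 ^ 2) / 3)
    have a2 := Real.smoothTransition.le_one ((4 - z.1 ^ 2) / 3)
    have b1 := Real.smoothTransition.nonneg ((R2 ^ 2 - rh z) / (R2 ^ 2 - R1 ^ 2))
    have b2 := Real.smoothTransition.le_one ((R2 ^ 2 - rh z) / (R2 ^ 2 - R1 ^ 2))
    exact ⟨mul_nonneg a1 b1, mul_le_one₀ a2 b1 b2⟩
  · intro z hz1 hz2
    have e1 : 1 ≤ (4 - z.1 ^ 2) / 3 := by
      have : z.1 ^ 2 ≤ 1 := by
        rw [← sq_abs]
        have := abs_nonneg z.1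
        nlinarith
      linarith
    have e2 : 1 ≤ (R2 ^ 2 - rh z) / (R2 ^ 2 - R1 ^ 2) := by
      rw [le_div_iff₀ hR]
      linarith
    rw [hA, hB]
    simp only
    rw [Real.smoothTransition.one_of_one_le e1, Real.smoothTransition.one_of_one_le e2, one_mul]

end NS
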