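import Pool.Agent.helper29.NS.Spec2

/-!
# NS: the gradient of the vorticity of the difference vanishes at the boundary (module NC)
-/

namespace NS

open MeasureTheory Filter Topology Set

theorem NCa_dir (f : ℝ × ℝ × ℝ → ℝ) (h2 : ContDiff ℝ 2 f) (v w q : ℝ × ℝ × ℝ) :
    fderiv ℝ (fun z => fderiv ℝ f z v) q w = fderiv ℝ (fderiv ℝ f) q w v := by
  have hd : Differentiable ℝ (fderiv ℝ f) :=
    (h2.fderiv_right (m := 1) (by norm_num)).differentiable (by norm_num)
  have h := (hd q).hasFDerivAt.clm_apply (hasFDerivAt_const v q)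
  rw [h.fderiv]
  simp

theorem NCa_symm (f : ℝ × ℝ × ℝ → ℝ) (h2 : ContDiff ℝ 2 f) (z : ℝ × ℝ × ℝ) :
    dx (dy f) z = dy (dx f) z := by
  unfold dx dy
  rw [NCa_dir f h2, NCa_dir f h2]
  exact (h2.contDiffAt.isSymmSndFDerivAt (by simp)).eq _ _

theorem NCa_cd (k : ℕ) (f : ℝ × ℝ × ℝ → ℝ) (hf : ContDiff ℝ (k + 1 : ℕ) f) :
    ContDiff ℝ k (dt f) ∧ ContDiff ℝ k (dx f) ∧ ContDiff ℝ k (dy f) := by
  have hk : ContDiff ℝ k (fderiv ℝ f) := hf.fderiv_right (by exact_mod_cast le_rfl)
  exact ⟨hk.clm_apply contDiff_const, hk.clm_apply contDiff_const, hk.clm_apply contDiff_const⟩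

theorem NCa_add {f g : ℝ × ℝ × ℝ → ℝ} {z : ℝ × ℝ × ℝ} (hf : DifferentiableAt ℝ f z)
    (hg : DifferentiableAt ℝ g z) :
    dx (fun z => f z + g z) z = dx f z + dx g z ∧ dy (fun z => f z + g z) z = dy f z + dy g z := by
  unfold dx dy
  have := fderiv_fun_add hf hg
  rw [this]
  simp

theorem NCa_sub {f g : ℝ × ℝ × ℝ → ℝ} {z : ℝ × ℝ × ℝ} (hf : DifferentiableAt ℝ f z)
    (hg : DifferentiableAt ℝ g z) :
    dx (fun z => f z - g z) z = dx f z - dx g z ∧ dy (fun z => f z - g z) z = dy f z - dy g z := by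
  unfold dx dy
  have := fderiv_fun_sub hf hg
  rw [this]
  simp

/-- closure -/
theorem NCa_cl {Ω : Set (ℝ × ℝ)} {F : ℝ × ℝ × ℝ → ℝ} (hF : Continuous F) {t : ℝ}
    (h : ∀ q ∈ Ω, F (t, q) = 0) {q : ℝ × ℝ} (hq : q ∈ closure Ω) : F (t, q) = 0 := by
  have hc : IsClosed {q : ℝ × ℝ | F (t, q) = 0} :=
    isClosed_eq (hF.comp (Continuous.prodMk continuous_const continuous_id)) continuous_const
  exact closure_minimal (fun q hq => h q hq) hc hq

/-- a function vanishing on `ℝ × Ω` has vanishing derivatives there -/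
theorem NCa_loc {Ω : Set (ℝ × ℝ)} (hΩ : IsOpen Ω) {F : ℝ × ℝ × ℝ → ℝ}
    (h : ∀ t, ∀ q ∈ Ω, F (t, q) = 0) (t : ℝ) {q : ℝ × ℝ} (hq : q ∈ Ω) :
    dx F (t, q) = 0 ∧ dy F (t, q) = 0 := by
  have ho : IsOpen ((univ : Set ℝ) ×ˢ Ω) := isOpen_univ.prod hΩ
  have he : F =ᶠ[𝓝 (t, q)] fun _ => 0 := by
    filter_upwards [ho.mem_nhds (Set.mk_mem_prod (mem_univ t) hq)] with z hz
    exact h z.1 z.2 hz.2
  have hf : fderiv ℝ F (t, q) = 0 := by
    rw [he.fderiv_eq]; simp
  unfold dx dy
  rw [hf]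
  simp

theorem NCa_dt {f : ℝ × ℝ × ℝ → ℝ} {t : ℝ} {q : ℝ × ℝ} (hf : DifferentiableAt ℝ f (t, q))
    (h : ∀ s, f (s, q) = 0) : dt f (t, q) = 0 := by
  have h1 : HasDerivAt (fun s : ℝ => ((s, q) : ℝ × ℝ × ℝ)) ((1, 0) : ℝ × ℝ × ℝ) t :=
    (hasDerivAt_id t).prodMk (hasDerivAt_const t q)
  have h2 : HasDerivAt (fun s => f (s, q)) (fderiv ℝ f (t, q) (1, 0)) t :=
    hf.hasFDerivAt.comp_hasDerivAt t h1
  have h3 : HasDerivAt (fun s => f (s, q)) 0 t := by
    have : (fun s => f (s, q)) = fun _ => (0 : ℝ) := funext h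
    rw [this]
    exact hasDerivAt_const t 0
  exact h2.unique h3

theorem NC : NC_stmt := by
  intro Ω ν a b m n hΩ hν D t q hq
  have hqc : q ∈ closure Ω := frontier_subset_closure hq
  have a3 : ContDiff ℝ (2 + 1 : ℕ) a := by exact_mod_cast D.ca
  have b3 : ContDiff ℝ (2 + 1 : ℕ) b := by exact_mod_cast D.cb
  have m3 : ContDiff ℝ (2 + 1 : ℕ) m := by exact_mod_cast D.cm
  have n3 : ContDiff ℝ (2 + 1 : ℕ) n := by exact_mod_cast D.cn
  have a2 : ContDiff ℝ 2 a := a3.of_le (by norm_num)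
  have b2 : ContDiff ℝ 2 b := b3.of_le (by norm_num)
  obtain ⟨at2, ax2, ay2⟩ := NCa_cd 2 a a3
  obtain ⟨bt2, bx2, by2⟩ := NCa_cd 2 b b3
  obtain ⟨mt2, mx2, my2⟩ := NCa_cd 2 m m3
  obtain ⟨nt2, nx2, ny2⟩ := NCa_cd 2 n n3
  obtain ⟨-, axx, axy⟩ := NCa_cd 1 (dx a) (by exact_mod_cast ax2)
  obtain ⟨-, ayx, ayy⟩ := NCa_cd 1 (dy a) (by exact_mod_cast ay2)
  obtain ⟨-, bxx, bxy⟩ := NCa_cd 1 (dx b) (by exact_mod_cast bx2)
  obtain ⟨-, byx, byy⟩ := NCa_cd 1 (dy b) (by exact_mod_cast by2)
  have dax : Differentiable ℝ (dx a) := ax2.differentiable (by norm_num)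
  have day : Differentiable ℝ (dy a) := ay2.differentiable (by norm_num)
  have dbx : Differentiable ℝ (dx b) := bx2.differentiable (by norm_num)
  have dby : Differentiable ℝ (dy b) := by2.differentiable (by norm_num)
  -- the vorticity
  have vx : ∀ z, dx (vort a b) z = dx (dx b) z - dx (dy a) z := fun z => (NCa_sub (dbx z) (day z)).1
  have vy : ∀ z, dy (vort a b) z = dy (dx b) z - dy (dy a) z := fun z => (NCa_sub (dbx z) (day z)).2
  -- derivatives of the divergence
  have dvx : ∀ t, ∀ q ∈ Ω, dx (dx a) (t, q) + dx (dy b) (t, q) = 0 := by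
    intro t q hq
    rw [← (NCa_add (dax (t, q)) (dby (t, q))).1]
    exact (NCa_loc hΩ (F := fun z => dx a z + dy b z) (fun t q hq => D.da t q hq) t hq).1
  have dvy : ∀ t, ∀ q ∈ Ω, dy (dx a) (t, q) + dy (dy b) (t, q) = 0 := by
    intro t q hq
    rw [← (NCa_add (dax (t, q)) (dby (t, q))).2]
    exact (NCa_loc hΩ (F := fun z => dx a z + dy b z) (fun t q hq => D.da t q hq) t hq).2
  -- Laplacians
  have la : ∀ t, ∀ q ∈ Ω, dx (dx a) (t, q) + dy (dy a) (t, q) + dy (vort a b) (t, q) = 0 := by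
    intro t q hq
    rw [vy, ← NCa_symm b b2]
    linear_combination dvx t q hq
  have lb : ∀ t, ∀ q ∈ Ω, dx (dx b) (t, q) + dy (dy b) (t, q) - dx (vort a b) (t, q) = 0 := by
    intro t q hq
    rw [vx, NCa_symm a a2]
    linear_combination dvy t q hq
  obtain ⟨qa, qb, qm, qn⟩ := D.bc t q hq
  have ta : dt a (t, q) = 0 :=
    NCa_dt ((a2.differentiable (by norm_num)) _) (fun s => (D.bc s q hq).1)
  have tb : dt b (t, q) = 0 :=
    NCa_dt ((b2.differentiable (by norm_num)) _) (fun s => (D.bc s q hq).2.1)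
  have ca : Continuous a := a2.continuous
  have cb : Continuous b := b2.continuous
  have cm : Continuous m := m3.continuous
  have cn : Continuous n := n3.continuous
  have La : dx (dx a) (t, q) + dy (dy a) (t, q) = 0 := by
    have h := NCa_cl (Ω := Ω) (t := t) (q := q)
      (F := fun z => dt a z + m z * dx a z + n z * dy a z + a z * dx m z + b z * dy m z
        - ν * (dx (dx a) z + dy (dy a) z))
      (by
        have h1 := at2.continuous
        have h2 := ax2.continuous
        have h3 := ay2.continuous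
        have h4 := mx2.continuous
        have h5 := my2.continuous
        have h6 := axx.continuous
        have h7 := ayy.continuous
        fun_prop)
      (fun q hq => by
        have := D.ea t q hq
        linarith) hqc
    simp only [qa, qb, qm, qn, ta, zero_mul, add_zero, zero_sub, neg_eq_zero, mul_eq_zero] at h
    rcases h with h | h
    · exact absurd h hν
    · exact h
  have Lb : dx (dx b) (t, q) + dy (dy b) (t, q) = 0 := by
    have h := NCa_cl (Ω := Ω) (t := t) (q := q)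
      (F := fun z => dt b z + m z * dx b z + n z * dy b z + a z * dx n z + b z * dy n z
        - ν * (dx (dx b) z + dy (dy b) z))
      (by
        have h1 := bt2.continuous
        have h2 := bx2.continuous
        have h3 := by2.continuous
        have h4 := nx2.continuous
        have h5 := ny2.continuous
        have h6 := bxx.continuous
        have h7 := byy.continuous
        fun_prop)
      (fun q hq => by
        have := D.eb t q hq
        linarith) hqc
    simp only [qa, qb, qm, qn, tb, zero_mul, add_zero, zero_sub, neg_eq_zero, mul_eq_zero] at h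
    rcases h with h | h
    · exact absurd h hν
    · exact h
  have cvx : Continuous (dx (vort a b)) := by
    have : dx (vort a b) = fun z => dx (dx b) z - dx (dy a) z := funext vx
    rw [this]
    exact bxx.continuous.sub ayx.continuous
  have cvy : Continuous (dy (vort a b)) := by
    have : dy (vort a b) = fun z => dy (dx b) z - dy (dy a) z := funext vy
    rw [this]
    exact bxy.continuous.sub ayy.continuous
  have Va : dx (dx a) (t, q) + dy (dy a) (t, q) + dy (vort a b) (t, q) = 0 :=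
    NCa_cl (F := fun z => dx (dx a) z + dy (dy a) z + dy (vort a b) z)
      ((axx.continuous.add ayy.continuous).add cvy) (fun q hq => la t q hq) hqc
  have Vb : dx (dx b) (t, q) + dy (dy b) (t, q) - dx (vort a b) (t, q) = 0 :=
    NCa_cl (F := fun z => dx (dx b) z + dy (dy b) z - dx (vort a b) z)
      ((bxx.continuous.add byy.continuous).sub cvx) (fun q hq => lb t q hq) hqc
  refine ⟨by linarith, by linarith, La, Lb, ?_, ?_⟩
  · exact NCa_cl (F := fun z => dx a z + dy b z) (ax2.continuous.add by2.continuous)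
      (fun q hq => D.da t q hq) hqc
  · exact NCa_cl (F := fun z => dx m z + dy n z) (mx2.continuous.add ny2.continuous)
      (fun q hq => D.dm t q hq) hqc

end NS
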