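import Pool.Agent.helper29.NS.Spec2

/-!
# NS: continuous functions which agree almost everywhere on an open set (module P3)
-/

namespace NS

open MeasureTheory Filter Topology Set

theorem P3 : P3_stmt := by
  intro Ω hΩ f g hf hg h q hq
  exact Measure.eqOn_open_of_ae_eq h hΩ hf.continuousOn hg.continuousOn hq

end NS
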