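import Pool.Agent.helper29.NS.Spec2

/-!
# NS: the equations in shear coordinates (module SE)
-/

namespace NS

open MeasureTheory Filter Topology Set

/-- `F` is differentiable at `z` with partial derivatives `u`, `v` -/
def SE_HD (F : ℝ × ℝ → ℝ) (z : ℝ × ℝ) (u v : ℝ) : Prop :=
  HasFDerivAt F (u • ContinuousLinearMap.fst ℝ ℝ ℝ + v • ContinuousLinearMap.snd ℝ ℝ ℝ) z

theorem SE_px {F : ℝ × ℝ → ℝ} {z : ℝ × ℝ} {u v : ℝ} (h : SE_HD F z u v) : px F z = u := by
  unfold px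
  rw [HasFDerivAt.fderiv h]
  simp

theorem SE_py {F : ℝ × ℝ → ℝ} {z : ℝ × ℝ} {u v : ℝ} (h : SE_HD F z u v) : py F z = v := by
  unfold py
  rw [HasFDerivAt.fderiv h]
  simp

theorem SE_of {F : ℝ × ℝ → ℝ} {z : ℝ × ℝ} (h : DifferentiableAt ℝ F z) :
    SE_HD F z (px F z) (py F z) := by
  refine h.hasFDerivAt.congr_fderiv ?_
  ext <;> simp [px, py]

theorem SE_add {F G : ℝ × ℝ → ℝ} {z : ℝ × ℝ} {u v u' v' : ℝ} (h : SE_HD F z u v)
    (h' : SE_HD G z u' v') : SE_HD (fun z => F z + G z) z (u + u') (v + v') := by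
  refine (HasFDerivAt.add h h').congr_fderiv ?_
  ext <;> simp

theorem SE_sub {F G : ℝ × ℝ → ℝ} {z : ℝ × ℝ} {u v u' v' : ℝ} (h : SE_HD F z u v)
    (h' : SE_HD G z u' v') : SE_HD (fun z => F z - G z) z (u - u') (v - v') := by
  refine (HasFDerivAt.sub h h').congr_fderiv ?_
  ext <;> simp

theorem SE_neg {F : ℝ × ℝ → ℝ} {z : ℝ × ℝ} {u v : ℝ} (h : SE_HD F z u v) :
    SE_HD (fun z => -F z) z (-u) (-v) := by
  refine (HasFDerivAt.neg h).congr_fderiv ?_
  ext <;> simp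

theorem SE_mul {F G : ℝ × ℝ → ℝ} {z : ℝ × ℝ} {u v u' v' : ℝ} (h : SE_HD F z u v)
    (h' : SE_HD G z u' v') :
    SE_HD (fun z => F z * G z) z (u * G z + F z * u') (v * G z + F z * v') := by
  refine (HasFDerivAt.mul h h').congr_fderiv ?_
  ext <;> simp <;> ring

theorem SE_fst {g : ℝ → ℝ} {z : ℝ × ℝ} {g' : ℝ} (h : HasDerivAt g g' z.1) :
    SE_HD (fun z => g z.1) z g' 0 := by
  have h1 : HasFDerivAt (fun z : ℝ × ℝ => g z.1) _ z := h.hasFDerivAt.comp z hasFDerivAt_fst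
  refine h1.congr_fderiv ?_
  ext <;> simp

theorem SE_sigma {F : ℝ × ℝ → ℝ} {f : ℝ → ℝ} {z : ℝ × ℝ} {u v f' : ℝ}
    (h : SE_HD F (z.1, f z.1 + z.2) u v) (hf : HasDerivAt f f' z.1) :
    SE_HD (fun z => F (z.1, f z.1 + z.2)) z (u + f' * v) v := by
  have h1 : SE_HD (fun z : ℝ × ℝ => f z.1) z f' 0 := SE_fst hf
  have h2 : HasFDerivAt (fun z : ℝ × ℝ => f z.1 + z.2)
      ((f' • ContinuousLinearMap.fst ℝ ℝ ℝ + (0 : ℝ) • ContinuousLinearMap.snd ℝ ℝ ℝ) +
        ContinuousLinearMap.snd ℝ ℝ ℝ) z := HasFDerivAt.add h1 hasFDerivAt_snd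
  have h3 : HasFDerivAt (fun z : ℝ × ℝ => (z.1, f z.1 + z.2)) _ z := hasFDerivAt_fst.prodMk h2
  have h4 : HasFDerivAt (fun z => F (z.1, f z.1 + z.2)) _ z := HasFDerivAt.comp z h h3
  refine h4.congr_fderiv ?_
  ext
  · simp; ring
  · simp

theorem SE_dir (f : ℝ × ℝ → ℝ) (h2 : ContDiff ℝ 2 f) (v w q : ℝ × ℝ) :
    fderiv ℝ (fun z => fderiv ℝ f z v) q w = fderiv ℝ (fderiv ℝ f) q w v := by
  have hd : Differentiable ℝ (fderiv ℝ f) :=
    (h2.fderiv_right (m := 1) (by norm_num)).differentiable (by norm_num)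
  have h := (hd q).hasFDerivAt.clm_apply (hasFDerivAt_const v q)
  rw [h.fderiv]
  simp

theorem SE_symm (f : ℝ × ℝ → ℝ) (h2 : ContDiff ℝ 2 f) (q : ℝ × ℝ) :
    px (py f) q = py (px f) q := by
  unfold px py
  rw [SE_dir f h2, SE_dir f h2]
  exact (h2.contDiffAt.isSymmSndFDerivAt (by simp)).eq _ _

theorem SE_dpx (f : ℝ × ℝ → ℝ) (h2 : ContDiff ℝ 2 f) : Differentiable ℝ (px f) :=
  ((h2.fderiv_right (m := 1) (by norm_num)).clm_apply contDiff_const).differentiable (by norm_num)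

theorem SE_dpy (f : ℝ × ℝ → ℝ) (h2 : ContDiff ℝ 2 f) : Differentiable ℝ (py f) :=
  ((h2.fderiv_right (m := 1) (by norm_num)).clm_apply contDiff_const).differentiable (by norm_num)

theorem SE : SE_stmt := by
  intro f a b m n U hf ha hb hm hn hU heq s r hsr
  have hf1 : HasDerivAt f (deriv f s) s := (hf.differentiable (by norm_num) s).hasDerivAt
  have hf2 : HasDerivAt (deriv f) (deriv (deriv f) s) s := by
    have : ContDiff ℝ 1 (deriv f) := by
      have := (contDiff_succ_iff_deriv (n := 1)).1 (by rw [one_add_one_eq_two]; exact hf)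
      exact this.2.2
    exact (this.differentiable (by norm_num) s).hasDerivAt
  set σ : ℝ × ℝ := (s, f s + r) with hσ
  obtain ⟨e1, e2, e3⟩ := heq σ hsr
  -- derivatives of the divergence equation
  have hdiv : (fun q => px a q + py b q) =ᶠ[𝓝 σ] fun _ => 0 := by
    filter_upwards [hU.mem_nhds hsr] with q hq using (heq q hq).1
  have hD : SE_HD (fun q => px a q + py b q) σ (px (px a) σ + px (py b) σ)
      (py (px a) σ + py (py b) σ) :=
    SE_add (SE_of (SE_dpx a ha σ)) (SE_of (SE_dpy b hb σ))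
  have hD0 : SE_HD (fun _ => (0 : ℝ)) σ 0 0 := by
    refine (hasFDerivAt_const (0 : ℝ) σ).congr_fderiv ?_
    ext <;> simp
  have hfd : fderiv ℝ (fun q => px a q + py b q) σ = fderiv ℝ (fun _ => (0 : ℝ)) σ :=
    hdiv.fderiv_eq
  have d1 : px (px a) σ + px (py b) σ = 0 := by
    rw [← SE_px hD, px, hfd]; simp
  have d2 : py (px a) σ + py (py b) σ = 0 := by
    rw [← SE_py hD, py, hfd]; simp
  have sa := SE_symm a ha σ
  have sb := SE_symm b hb σ
  -- the pieces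
  have Df : SE_HD (fun z : ℝ × ℝ => deriv f z.1) (s, r) (deriv (deriv f) s) 0 := SE_fst hf2
  have Hax := SE_sigma (z := (s, r)) (f := f) (SE_of (SE_dpx a ha σ)) hf1
  have Hay := SE_sigma (z := (s, r)) (f := f) (SE_of (SE_dpy a ha σ)) hf1
  have Hbx := SE_sigma (z := (s, r)) (f := f) (SE_of (SE_dpx b hb σ)) hf1
  have Hby := SE_sigma (z := (s, r)) (f := f) (SE_of (SE_dpy b hb σ)) hf1
  have Hm := SE_sigma (z := (s, r)) (f := f) (SE_of (hm.differentiable (by norm_num) σ)) hf1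
  have Hn := SE_sigma (z := (s, r)) (f := f) (SE_of (hn.differentiable (by norm_num) σ)) hf1
  have HA := SE_neg Hay
  have HB := SE_add Hax (SE_mul Df Hay)
  have HC := SE_sub (SE_add Hbx (SE_mul Df Hby)) (SE_mul Df (SE_add Hax (SE_mul Df Hay)))
  have HP := SE_sub Hn (SE_mul Df Hm)
  have HQ := SE_neg Hm
  have HL := SE_add (SE_mul HA HP) (SE_mul HB HQ)
  have HR := SE_add (SE_mul HB HP) (SE_mul HC HQ)
  have eP : py (cP f m n) (s, r) = _ := SE_py HP
  have eQ : px (cQ f m) (s, r) = _ := SE_px HQ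
  have eL : px (fun z => cA f a z * cP f m n z + cB f a z * cQ f m z) (s, r) = _ := SE_px HL
  have eR : py (fun z => cB f a z * cP f m n z + cC f a b z * cQ f m z) (s, r) = _ := SE_py HR
  constructor
  · rw [eP, eQ]
    simp only [← hσ]
    linear_combination e2
  · rw [eL, eR]
    simp only [← hσ]
    linear_combination (-(n σ - deriv f s * m σ)) * sa + (-m σ) * (d1 - sb + deriv f s * sa + deriv f s * d2)
      - e3 + (py n σ - deriv f s * py m σ) * e1

end NS
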