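import Pool.Agent.helper29.NS.Spec2

/-!
# NS: regularity and symmetry of the derivatives in the plane (module SP)
-/

namespace NS

open MeasureTheory Filter Topology Set

theorem SP_dir (f : ℝ × ℝ → ℝ) (h2 : ContDiff ℝ 2 f) (v w q : ℝ × ℝ) :
    fderiv ℝ (fun z => fderiv ℝ f z v) q w = fderiv ℝ (fderiv ℝ f) q w v := by
  have hd : Differentiable ℝ (fderiv ℝ f) :=
    (h2.fderiv_right (m := 1) (by norm_num)).differentiable (by norm_num)
  have h := (hd q).hasFDerivAt.clm_apply (hasFDerivAt_const v q)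
  rw [h.fderiv]
  simp

theorem SP : SP_stmt := by
  intro k f hf
  have hk : ContDiff ℝ k (fderiv ℝ f) := hf.fderiv_right (by exact_mod_cast le_rfl)
  refine ⟨hk.clm_apply contDiff_const, hk.clm_apply contDiff_const, ?_⟩
  intro hk1
  have h2 : ContDiff ℝ 2 f := hf.of_le (by exact_mod_cast Nat.succ_le_succ hk1)
  funext q
  unfold px py
  rw [SP_dir f h2, SP_dir f h2]
  exact (h2.contDiffAt.isSymmSndFDerivAt (by simp)).eq _ _

end NS
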