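import Pool.Agent.helper29.NS.SpecC

/-!
# Project ns, module CF: the facts on the circle
-/

namespace NS

open MeasureTheory Filter Topology Set

theorem CF_dx {k : ℕ} {f : ℝ × ℝ × ℝ → ℝ} (hf : ContDiff ℝ (k + 1) f) :
    ContDiff ℝ k (dx f) ∧ ContDiff ℝ k (dy f) := by
  have h : ContDiff ℝ k (fderiv ℝ f) := hf.fderiv_right (le_refl _)
  exact ⟨h.clm_apply contDiff_const, h.clm_apply contDiff_const⟩

/-- The space derivatives of a function which vanishes near `q` at the time `t`. -/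
theorem CF_zero {F : ℝ × ℝ × ℝ → ℝ} (hF : Differentiable ℝ F) {t : ℝ} {O : Set (ℝ × ℝ)}
    (hO : IsOpen O) (h0 : ∀ q ∈ O, F (t, q) = 0) {q : ℝ × ℝ} (hq : q ∈ O) :
    dx F (t, q) = 0 ∧ dy F (t, q) = 0 := by
  have key : ∀ v : ℝ × ℝ, fderiv ℝ F (t, q) (0, v) = 0 := by
    intro v
    have h1 : HasDerivAt (fun s : ℝ => ((t, q + s • v) : ℝ × ℝ × ℝ)) (0, v) 0 := by
      have h2 : HasDerivAt (fun s : ℝ => q + s • v) v 0 := by
        have h3 := ((hasDerivAt_id (0 : ℝ)).smul_const v).const_add q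
        simpa using h3
      exact (hasDerivAt_const (0 : ℝ) t).prodMk h2
    have hFq : HasFDerivAt F (fderiv ℝ F (t, q)) ((fun s : ℝ => ((t, q + s • v) : ℝ × ℝ × ℝ)) 0) := by
      have : (fun s : ℝ => ((t, q + s • v) : ℝ × ℝ × ℝ)) 0 = (t, q) := by simp
      rw [this]
      exact (hF (t, q)).hasFDerivAt
    have h4 := hFq.comp_hasDerivAt (0 : ℝ) h1
    have h5 : (F ∘ fun s : ℝ => ((t, q + s • v) : ℝ × ℝ × ℝ)) =ᶠ[𝓝 0] fun _ => 0 := by
      have hc : ContinuousAt (fun s : ℝ => q + s • v) 0 := by fun_prop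
      have hmem : O ∈ 𝓝 ((fun s : ℝ => q + s • v) 0) := by
        have : (fun s : ℝ => q + s • v) 0 = q := by simp
        rw [this]
        exact hO.mem_nhds hq
      filter_upwards [hc hmem] with s hs
      exact h0 _ hs
    have h6 := (h4.congr_of_eventuallyEq h5.symm).unique (hasDerivAt_const (0 : ℝ) (0 : ℝ))
    exact h6
  exact ⟨key (1, 0), key (0, 1)⟩

theorem CF_ringOpen (r R : ℝ) : IsOpen (Ring r R) := by
  have h1 : IsOpen {q : ℝ × ℝ | r ^ 2 < q.1 ^ 2 + q.2 ^ 2} :=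
    isOpen_lt continuous_const (by fun_prop)
  have h2 : IsOpen {q : ℝ × ℝ | q.1 ^ 2 + q.2 ^ 2 < R ^ 2} :=
    isOpen_lt (by fun_prop) continuous_const
  exact h1.inter h2

/-- Extension to the circle. -/
theorem CF_circ {F : ℝ × ℝ × ℝ → ℝ} (hF : Continuous F) {t r R : ℝ} (hr : 0 ≤ r) (hrR : r < R)
    (h0 : ∀ q ∈ Ring r R, F (t, q) = 0) : ∀ q ∈ Circ R, F (t, q) = 0 := by
  intro q hq
  have hR : 0 < R := lt_of_le_of_lt hr hrR
  have hclosed : IsClosed {s : ℝ | F (t, (s * q.1, s * q.2)) = 0} :=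
    isClosed_eq (by fun_prop) continuous_const
  have hsub : Ioo (r / R) 1 ⊆ {s : ℝ | F (t, (s * q.1, s * q.2)) = 0} := by
    intro s hs
    refine h0 _ ?_
    have hs0 : 0 ≤ r / R := div_nonneg hr hR.le
    have hq2 : q.1 ^ 2 + q.2 ^ 2 = R ^ 2 := hq
    have e : (s * q.1) ^ 2 + (s * q.2) ^ 2 = (s * R) ^ 2 := by
      rw [mul_pow, mul_pow, ← mul_add, hq2, mul_pow]
    have h1 : r < s * R := (div_lt_iff₀ hR).1 hs.1
    have h2 : s * R < R := by nlinarith [hs.2]
    show r ^ 2 < (s * q.1) ^ 2 + (s * q.2) ^ 2 ∧ (s * q.1) ^ 2 + (s * q.2) ^ 2 < R ^ 2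
    rw [e]
    constructor <;> nlinarith
  have hlt : r / R < 1 := (div_lt_one hR).2 hrR
  have hmem : (1 : ℝ) ∈ closure (Ioo (r / R) 1) := by
    rw [closure_Ioo hlt.ne]
    exact ⟨hlt.le, le_rfl⟩
  have h3 := (hclosed.closure_subset_iff.2 hsub) hmem
  have h4 : F (t, (1 * q.1, 1 * q.2)) = 0 := h3
  rw [one_mul, one_mul] at h4
  exact h4

theorem CF (hCN : CN_stmt) (hCV : CV_stmt) (hNC : NC_stmt) (hKF : KF_stmt) : CF_stmt := by
  intro Ω ν R t1 G a1 b1 a2 b2 a b m n hC t ht q hq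
  have hfr : q ∈ frontier Ω := ((hKF Ω R hC.op hC.oc).2 q hq).1
  have hnc := hNC Ω ν a b m n hC.op hC.nu.ne' hC.dmm t q hfr
  have hcm : ContDiff ℝ ((2 : ℕ) + 1) m := by
    have := hC.dmm.cm
    norm_cast
  have hcn : ContDiff ℝ ((2 : ℕ) + 1) n := by
    have := hC.dmm.cn
    norm_cast
  have hvort : ContDiff ℝ ((1 : ℕ) + 1) (vort m n) := by
    have h1 := (CF_dx hcn).1
    have h2 := (CF_dx hcm).2
    have h3 : ContDiff ℝ (2 : ℕ) (vort m n) := h1.sub h2
    have e : (((1 : ℕ) : WithTop ℕ∞) + 1) = ((2 : ℕ) : WithTop ℕ∞) := by norm_num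
    rw [e]
    exact h3
  have hcv : Continuous (vort m n) := hvort.continuous
  have hcx : Continuous (dx (vort m n)) := (CF_dx hvort).1.continuous
  have hcy : Continuous (dy (vort m n)) := (CF_dx hvort).2.continuous
  have hdv : Differentiable ℝ (vort m n) := hvort.differentiable (by norm_num)
  have hdm : Differentiable ℝ m := hcm.differentiable (by norm_num)
  have hdn : Differentiable ℝ n := hcn.differentiable (by norm_num)
  have hgood : ∀ t', vort a b (t', (R, 0)) ≠ 0 → vort m n (t', q) = 0 ∧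
      dx (vort m n) (t', q) = 0 ∧ dy (vort m n) (t', q) = 0 := by
    intro t' ht'
    obtain ⟨ε, hε, hεR, -, hz⟩ := hCV Ω ν R t1 G a1 b1 a2 b2 a b m n hC t' ht'
    have ho := CF_ringOpen (R - ε) R
    have hv : ∀ q' ∈ Ring (R - ε) R, vort m n (t', q') = 0 := by
      intro q' hq'
      have e1 := (CF_zero hdn ho (fun q' hq' => (hz q' hq').2) hq').1
      have e2 := (CF_zero hdm ho (fun q' hq' => (hz q' hq').1) hq').2
      unfold vort
      rw [e1, e2, sub_zero]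
    have hr : 0 ≤ R - ε := by linarith
    have hrR : R - ε < R := by linarith
    exact ⟨CF_circ hcv hr hrR hv q hq,
      CF_circ hcx hr hrR (fun q' hq' => (CF_zero hdv ho hv hq').1) q hq,
      CF_circ hcy hr hrR (fun q' hq' => (CF_zero hdv ho hv hq').2) q hq⟩
  have hclos : t ∈ closure {t' : ℝ | vort a b (t', (R, 0)) ≠ 0} := by
    rw [Metric.mem_closure_iff]
    intro δ hδ
    obtain ⟨t', ht', hne⟩ := (hCN Ω ν R t1 G a1 b1 a2 b2 a b m n hC).2 (t - δ) t (by linarith) ht.le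
    refine ⟨t', hne, ?_⟩
    rw [Real.dist_eq, abs_lt]
    constructor <;> linarith [ht'.1, ht'.2]
  have hext : ∀ F : ℝ × ℝ × ℝ → ℝ, Continuous F →
      (∀ t', vort a b (t', (R, 0)) ≠ 0 → F (t', q) = 0) → F (t, q) = 0 := by
    intro F hF h
    have hclosed : IsClosed {t' : ℝ | F (t', q) = 0} :=
      isClosed_eq (by fun_prop) continuous_const
    exact (hclosed.closure_subset_iff.2 fun t' ht' => h t' ht') hclos
  exact ⟨hext _ hcv fun t' h => (hgood t' h).1, hext _ hcx fun t' h => (hgood t' h).2.1,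
    hext _ hcy fun t' h => (hgood t' h).2.2, hnc.1, hnc.2.1⟩

end NS
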