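import Pool.Agent.helper46.NS.CF

/-!
# Project ns, module CU: rotation invariance on a time window
-/

namespace NS

open MeasureTheory Filter Topology Set

theorem CU_dsub {f g : ℝ × ℝ × ℝ → ℝ} (hf : Differentiable ℝ f) (hg : Differentiable ℝ g) :
    dt (fun z => f z - g z) = (fun z => dt f z - dt g z) ∧
    dx (fun z => f z - g z) = (fun z => dx f z - dx g z) ∧
    dy (fun z => f z - g z) = (fun z => dy f z - dy g z) := by
  have h : ∀ z, fderiv ℝ (fun z => f z - g z) z = fderiv ℝ f z - fderiv ℝ g z := fun z =>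
    fderiv_fun_sub (hf z) (hg z)
  refine ⟨?_, ?_, ?_⟩
  · funext z; unfold dt; rw [h]; rfl
  · funext z; unfold dx; rw [h]; rfl
  · funext z; unfold dy; rw [h]; rfl

theorem CU_lapsub {f g : ℝ × ℝ × ℝ → ℝ} (hf : ContDiff ℝ 2 f) (hg : ContDiff ℝ 2 g)
    (z : ℝ × ℝ × ℝ) : lap (fun z => f z - g z) z = lap f z - lap g z := by
  have hf' : ContDiff ℝ ((1 : ℕ) + 1) f := by
    have e : (((1 : ℕ) : WithTop ℕ∞) + 1) = 2 := by norm_num
    rw [e]; exact hf
  have hg' : ContDiff ℝ ((1 : ℕ) + 1) g := by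
    have e : (((1 : ℕ) : WithTop ℕ∞) + 1) = 2 := by norm_num
    rw [e]; exact hg
  have hfd : Differentiable ℝ f := hf.differentiable (by norm_num)
  have hgd : Differentiable ℝ g := hg.differentiable (by norm_num)
  obtain ⟨fx, fy⟩ := CF_dx hf'
  obtain ⟨gx, gy⟩ := CF_dx hg'
  have d : ∀ {k : ℝ × ℝ × ℝ → ℝ}, ContDiff ℝ (1 : ℕ) k → Differentiable ℝ k := fun hk =>
    hk.differentiable (by norm_num)
  unfold lap
  rw [(CU_dsub hfd hgd).2.1, (CU_dsub hfd hgd).2.2, (CU_dsub (d fx) (d gx)).2.1,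
    (CU_dsub (d fy) (d gy)).2.2]
  ring

theorem CU (hKB : KB_stmt) (hKG : KG_stmt) (hCN : CN_stmt) (hNC : NC_stmt) (hRO : RO_stmt)
    (hRX : RX_stmt) (hKF : KF_stmt) : CU_stmt := by
  intro Ω ν R t1 G a1 b1 a2 b2 a b m n hC ρ α β hρ hρR hring hmn γ t ht q hq
  have hR : 0 < R := lt_of_le_of_lt hρ hρR
  have hca : ContDiff ℝ 2 a := hC.dmm.ca.of_le (by norm_num)
  have hcb : ContDiff ℝ 2 b := hC.dmm.cb.of_le (by norm_num)
  have hdm : Differentiable ℝ m := hC.dmm.cm.differentiable (by norm_num)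
  have hdn : Differentiable ℝ n := hC.dmm.cn.differentiable (by norm_num)
  obtain ⟨-, hra, hrb, hro⟩ := hRO γ a a b hca hca hcb
  have hda : Differentiable ℝ a := hca.differentiable (by norm_num)
  have hdb : Differentiable ℝ b := hcb.differentiable (by norm_num)
  have hdra : Differentiable ℝ (rfa γ a b) := hra.differentiable (by norm_num)
  have hdrb : Differentiable ℝ (rfb γ a b) := hrb.differentiable (by norm_num)
  have hrc : ∀ q ∈ Circ R, rot (-γ) q ∈ Circ R := by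
    intro q hq
    have h1 := (hRX (-γ) q).1
    have h2 : q.1 ^ 2 + q.2 ^ 2 = R ^ 2 := hq
    show (rot (-γ) q).1 ^ 2 + (rot (-γ) q).2 ^ 2 = R ^ 2
    rw [h1, h2]
  have hrr : ∀ q ∈ Ring ρ R, rot (-γ) q ∈ Ring ρ R := by
    intro q hq
    have h1 := (hRX (-γ) q).1
    have h2 : ρ ^ 2 < q.1 ^ 2 + q.2 ^ 2 ∧ q.1 ^ 2 + q.2 ^ 2 < R ^ 2 := hq
    show ρ ^ 2 < (rot (-γ) q).1 ^ 2 + (rot (-γ) q).2 ^ 2 ∧
      (rot (-γ) q).1 ^ 2 + (rot (-γ) q).2 ^ 2 < R ^ 2
    rw [h1]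
    exact h2
  have hfr : ∀ q ∈ Circ R, q ∈ frontier Ω := fun q hq => ((hKF Ω R hC.op hC.oc).2 q hq).1
  have hnc := fun t q hq => hNC Ω ν a b m n hC.op hC.nu.ne' hC.dmm t q (hfr q hq)
  have hbc := fun t q hq => hC.dmm.bc t q (hfr q hq)
  have hw := (hCN Ω ν R t1 G a1 b1 a2 b2 a b m n hC).1
  -- the heat equation in the ring
  have hheat : ∀ t ∈ Ioo α β, ∀ q ∈ Ring ρ R, dt a (t, q) = ν * lap a (t, q) ∧
      dt b (t, q) = ν * lap b (t, q) := by
    intro t ht q hq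
    have ho := CF_ringOpen ρ R
    obtain ⟨m0, n0⟩ := hmn t ht q hq
    obtain ⟨mx, my⟩ := CF_zero hdm ho (fun q hq => (hmn t ht q hq).1) hq
    obtain ⟨nx, ny⟩ := CF_zero hdn ho (fun q hq => (hmn t ht q hq).2) hq
    have ea := hC.dmm.ea t q (hring hq)
    have eb := hC.dmm.eb t q (hring hq)
    rw [m0, n0, mx, my] at ea
    rw [m0, n0, nx, ny] at eb
    unfold lap
    constructor <;> linarith
  -- the data on the circle
  have hdat : ∀ t, ∀ q ∈ Circ R,
      (rfa γ a b (t, q) = 0 ∧ rfb γ a b (t, q) = 0) ∧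
      (dx a (t, q) = dx (rfa γ a b) (t, q) ∧ dy a (t, q) = dy (rfa γ a b) (t, q) ∧
        dx b (t, q) = dx (rfb γ a b) (t, q) ∧ dy b (t, q) = dy (rfb γ a b) (t, q)) ∧
      (lap (rfa γ a b) (t, q) = 0 ∧ lap (rfb γ a b) (t, q) = 0) := by
    intro t q hq
    have hz : ∀ q ∈ Circ R, rfa γ a b (t, q) = 0 ∧ rfb γ a b (t, q) = 0 := by
      intro q hq
      have h1 := hbc t _ (hrc q hq)
      unfold rfa rfb
      simp only
      rw [h1.1, h1.2.1]
      simp
    have hdiv : ∀ q ∈ Circ R, dx (rfa γ a b) (t, q) + dy (rfb γ a b) (t, q) = 0 := by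
      intro q hq
      have h1 := (hro (t, q)).2.2.2.2.2.2.2.2.1
      rw [h1]
      exact (hnc t _ (hrc q hq)).2.2.2.2.1
    have k1 := hKG R t a b hR hca hcb (fun q hq => ⟨(hbc t q hq).1, (hbc t q hq).2.1⟩)
      (fun q hq => (hnc t q hq).2.2.2.2.1) q hq
    have k2 := hKG R t (rfa γ a b) (rfb γ a b) hR hra hrb hz hdiv q hq
    have hv : vort (rfa γ a b) (rfb γ a b) (t, q) = vort a b (t, q) := by
      have h1 := (hro (t, q)).2.2.2.2.2.2.2.2.2.1
      rw [h1]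
      show vort a b (t, rot (-γ) q) = vort a b (t, q)
      rw [hw t _ (hrc q hq), hw t q hq]
    rw [hv] at k2
    have hR2 : (R ^ 2 : ℝ) ≠ 0 := by positivity
    refine ⟨hz q hq, ⟨?_, ?_, ?_, ?_⟩, ?_, ?_⟩
    · exact mul_left_cancel₀ hR2 (k1.1.trans k2.1.symm)
    · exact mul_left_cancel₀ hR2 (k1.2.1.trans k2.2.1.symm)
    · exact mul_left_cancel₀ hR2 (k1.2.2.1.trans k2.2.2.1.symm)
    · exact mul_left_cancel₀ hR2 (k1.2.2.2.trans k2.2.2.2.symm)
    · rw [(hro (t, q)).2.2.2.2.1]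
      have h1 := hnc t _ (hrc q hq)
      have l1 : lap a (t, rot (-γ) q) = 0 := h1.2.2.1
      have l2 : lap b (t, rot (-γ) q) = 0 := h1.2.2.2.1
      unfold rfa
      simp only
      rw [l1, l2]
      simp
    · rw [(hro (t, q)).2.2.2.2.2.1]
      have h1 := hnc t _ (hrc q hq)
      have l1 : lap a (t, rot (-γ) q) = 0 := h1.2.2.1
      have l2 : lap b (t, rot (-γ) q) = 0 := h1.2.2.2.1
      unfold rfb
      simp only
      rw [l1, l2]
      simp
  have hfin := hKB R ρ α β ν 0 (fun z => a z - rfa γ a b z) (fun z => b z - rfb γ a b z) hρ hρR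
    hC.nu (hca.sub hra) (hcb.sub hrb) ?_ ?_ ?_ t ht q hq
  · constructor
    · have h1 : a (t, q) - rfa γ a b (t, q) = 0 := hfin.1
      linarith
    · have h1 : b (t, q) - rfb γ a b (t, q) = 0 := hfin.2
      linarith
  · intro t _ q hq
    obtain ⟨⟨z1, -⟩, ⟨x1, y1, -, -⟩, l1, -⟩ := hdat t q hq
    refine ⟨?_, ?_, ?_, ?_⟩
    · show a (t, q) - rfa γ a b (t, q) = 0
      rw [z1, (hbc t q hq).1, sub_zero]
    · rw [(CU_dsub hda hdra).2.1]
      show dx a (t, q) - dx (rfa γ a b) (t, q) = 0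
      rw [x1, sub_self]
    · rw [(CU_dsub hda hdra).2.2]
      show dy a (t, q) - dy (rfa γ a b) (t, q) = 0
      rw [y1, sub_self]
    · rw [CU_lapsub hca hra, l1, sub_zero]
      exact (hnc t q hq).2.2.1
  · intro t _ q hq
    obtain ⟨⟨-, z1⟩, ⟨-, -, x1, y1⟩, -, l1⟩ := hdat t q hq
    refine ⟨?_, ?_, ?_, ?_⟩
    · show b (t, q) - rfb γ a b (t, q) = 0
      rw [z1, (hbc t q hq).2.1, sub_zero]
    · rw [(CU_dsub hdb hdrb).2.1]
      show dx b (t, q) - dx (rfb γ a b) (t, q) = 0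
      rw [x1, sub_self]
    · rw [(CU_dsub hdb hdrb).2.2]
      show dy b (t, q) - dy (rfb γ a b) (t, q) = 0
      rw [y1, sub_self]
    · rw [CU_lapsub hcb hrb, l1, sub_zero]
      exact (hnc t q hq).2.2.2.1
  · intro t ht q hq
    have e1 : heat ν (fun z => a z - rfa γ a b z) (t, q) = 0 := by
      have h1 : heat ν (fun z => a z - rfa γ a b z) (t, q) =
          dt (fun z => a z - rfa γ a b z) (t, q) -
            ν * lap (fun z => a z - rfa γ a b z) (t, q) := rfl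
      rw [h1, (CU_dsub hda hdra).1, CU_lapsub hca hra]
      simp only
      rw [(hro (t, q)).2.2.2.2.2.2.1, (hro (t, q)).2.2.2.2.1]
      unfold rfa
      simp only
      obtain ⟨h2, -⟩ := hheat t ht q hq
      obtain ⟨h3, h4⟩ := hheat t ht _ (hrr q hq)
      rw [h2, h3, h4]
      ring
    have e2 : heat ν (fun z => b z - rfb γ a b z) (t, q) = 0 := by
      have h1 : heat ν (fun z => b z - rfb γ a b z) (t, q) =
          dt (fun z => b z - rfb γ a b z) (t, q) -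
            ν * lap (fun z => b z - rfb γ a b z) (t, q) := rfl
      rw [h1, (CU_dsub hdb hdrb).1, CU_lapsub hcb hrb]
      simp only
      rw [(hro (t, q)).2.2.2.2.2.2.2.1, (hro (t, q)).2.2.2.2.2.1]
      unfold rfb
      simp only
      obtain ⟨-, h2⟩ := hheat t ht q hq
      obtain ⟨h3, h4⟩ := hheat t ht _ (hrr q hq)
      rw [h2, h3, h4]
      ring
    rw [e1, e2, abs_zero, add_zero, zero_mul]

end NS
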