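import Pool.Agent.helper29.NS.SpecC

/-!
# Project ns, module KG: the gradient at the circle of a field which vanishes on the circle
-/

namespace NS

open MeasureTheory Filter Topology Set

theorem KG_polar (R : ℝ) (hR : 0 < R) (q : ℝ × ℝ) (hq : q ∈ Circ R) :
    ∃ θ : ℝ, q = (R * Real.cos θ, R * Real.sin θ) := by
  have hn : ‖(⟨q.1, q.2⟩ : ℂ)‖ = R := by
    have h3 : q.1 ^ 2 + q.2 ^ 2 = R ^ 2 := hq
    rw [Complex.norm_def, Complex.normSq_mk, show q.1 * q.1 + q.2 * q.2 = R ^ 2 by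
      rw [← h3]; ring, Real.sqrt_sq hR.le]
  refine ⟨(⟨q.1, q.2⟩ : ℂ).arg, Prod.ext ?_ ?_⟩
  · have := Complex.norm_mul_cos_arg (⟨q.1, q.2⟩ : ℂ)
    rw [hn] at this
    exact this.symm
  · have := Complex.norm_mul_sin_arg (⟨q.1, q.2⟩ : ℂ)
    rw [hn] at this
    exact this.symm

/-- The tangential derivative of a function which vanishes on the circle. -/
theorem KG_tan (R t : ℝ) (hR : 0 < R) (a : ℝ × ℝ × ℝ → ℝ) (ha : Differentiable ℝ a)
    (h0 : ∀ q ∈ Circ R, a (t, q) = 0) (q : ℝ × ℝ) (hq : q ∈ Circ R) :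
    q.1 * dy a (t, q) = q.2 * dx a (t, q) := by
  obtain ⟨θ, rfl⟩ := KG_polar R hR q hq
  have h1 : HasDerivAt (fun s : ℝ => ((t, (R * Real.cos s, R * Real.sin s)) : ℝ × ℝ × ℝ))
      (0, (R * -Real.sin θ, R * Real.cos θ)) θ :=
    (hasDerivAt_const θ t).prodMk
      (((Real.hasDerivAt_cos θ).const_mul R).prodMk ((Real.hasDerivAt_sin θ).const_mul R))
  have h2 := (ha (t, (R * Real.cos θ, R * Real.sin θ))).hasFDerivAt.comp_hasDerivAt θ h1
  have h3 : (a ∘ fun s : ℝ => ((t, (R * Real.cos s, R * Real.sin s)) : ℝ × ℝ × ℝ)) =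
      fun _ => 0 := by
    funext s
    refine h0 _ ?_
    show (R * Real.cos s) ^ 2 + (R * Real.sin s) ^ 2 = R ^ 2
    have := Real.sin_sq_add_cos_sq s
    calc (R * Real.cos s) ^ 2 + (R * Real.sin s) ^ 2
        = R ^ 2 * (Real.sin s ^ 2 + Real.cos s ^ 2) := by ring
      _ = R ^ 2 := by rw [this, mul_one]
  rw [h3] at h2
  have h4 := h2.unique (hasDerivAt_const θ (0 : ℝ))
  have h5 : ((0, (R * -Real.sin θ, R * Real.cos θ)) : ℝ × ℝ × ℝ) =
      (R * -Real.sin θ) • ((0, 1, 0) : ℝ × ℝ × ℝ) + (R * Real.cos θ) • ((0, 0, 1) : ℝ × ℝ × ℝ) := by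
    simp
  rw [h5, map_add, map_smul, map_smul, smul_eq_mul, smul_eq_mul] at h4
  unfold dx dy
  linarith

theorem KG : KG_stmt := by
  intro R t a b hR ha hb h0 hdiv q hq
  have hda : Differentiable ℝ a := ha.differentiable (by norm_num)
  have hdb : Differentiable ℝ b := hb.differentiable (by norm_num)
  have e1 := KG_tan R t hR a hda (fun q hq => (h0 q hq).1) q hq
  have e2 := KG_tan R t hR b hdb (fun q hq => (h0 q hq).2) q hq
  have e3 := hdiv q hq
  have hRq : R ^ 2 = q.1 ^ 2 + q.2 ^ 2 := Eq.symm hq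
  rw [hRq]
  unfold vort
  set ax := dx a (t, q)
  set ay := dy a (t, q)
  set bx := dx b (t, q)
  set byy := dy b (t, q)
  have e4 : byy = -ax := by linarith
  rw [e4] at e2 ⊢
  refine ⟨?_, ?_, ?_, ?_⟩
  · linear_combination (-q.1) * e2 - q.2 * e1
  · linear_combination q.1 * e1 - q.2 * e2
  · linear_combination (-q.2) * e2 + q.1 * e1
  · linear_combination q.1 * e2 + q.2 * e1

end NS
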