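import Pool.Agent.helper29.NS.SpecC

/-!
# Project ns, module S2: the inner circle of a swept annulus lies in `Ω`
-/

namespace NS

open MeasureTheory Filter Topology Set

theorem S2 (hEH : EH_stmt) : S2_stmt := by
  intro Ω ν R t1 G a1 b1 a2 b2 a b m n hC ρ hρ hρR hS q0 hq0
  by_contra hout
  -- polar coordinates
  obtain ⟨θ, h1, h2⟩ : ∃ θ : ℝ, q0.1 = ρ * Real.cos θ ∧ q0.2 = ρ * Real.sin θ := by
    have hn : ‖(⟨q0.1, q0.2⟩ : ℂ)‖ = ρ := by
      have h3 : q0.1 ^ 2 + q0.2 ^ 2 = ρ ^ 2 := hq0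
      rw [Complex.norm_def, Complex.normSq_mk, show q0.1 * q0.1 + q0.2 * q0.2 = ρ ^ 2 by
        rw [← h3]; ring, Real.sqrt_sq hρ.le]
    refine ⟨(⟨q0.1, q0.2⟩ : ℂ).arg, ?_, ?_⟩
    · have := Complex.norm_mul_cos_arg (⟨q0.1, q0.2⟩ : ℂ)
      rw [hn] at this
      exact this.symm
    · have := Complex.norm_mul_sin_arg (⟨q0.1, q0.2⟩ : ℂ)
      rw [hn] at this
      exact this.symm
  have hq : q0 = (ρ * Real.cos θ, ρ * Real.sin θ) := Prod.ext h1 h2
  have hsq : ∀ s : ℝ, (s * Real.cos θ) ^ 2 + (s * Real.sin θ) ^ 2 = s ^ 2 := by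
    intro s
    have := Real.sin_sq_add_cos_sq θ
    calc (s * Real.cos θ) ^ 2 + (s * Real.sin θ) ^ 2
        = s ^ 2 * (Real.sin θ ^ 2 + Real.cos θ ^ 2) := by ring
      _ = s ^ 2 := by rw [this, mul_one]
  have hring : ∀ s ∈ Ioo ρ R, (s * Real.cos θ, s * Real.sin θ) ∈ Ring ρ R := by
    intro s hs
    show ρ ^ 2 < (s * Real.cos θ) ^ 2 + (s * Real.sin θ) ^ 2 ∧
      (s * Real.cos θ) ^ 2 + (s * Real.sin θ) ^ 2 < R ^ 2
    rw [hsq]
    constructor
    · nlinarith [hs.1, hρ]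
    · nlinarith [hs.1, hs.2, hρ]
  have hring0 : ∀ s ∈ Ioo ρ R, (s, (0 : ℝ)) ∈ Ring ρ R := by
    intro s hs
    show ρ ^ 2 < s ^ 2 + 0 ^ 2 ∧ s ^ 2 + 0 ^ 2 < R ^ 2
    constructor
    · nlinarith [hs.1, hρ]
    · nlinarith [hs.1, hs.2, hρ]
  have hmem : ρ ∈ closure (Ioo ρ R) := by
    rw [closure_Ioo hρR.ne]
    exact ⟨le_rfl, hρR.le⟩
  -- the point is a boundary point
  have hcl : q0 ∈ closure Ω := by
    have hclosed : IsClosed {s : ℝ | (s * Real.cos θ, s * Real.sin θ) ∈ closure Ω} :=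
      isClosed_closure.preimage (by fun_prop)
    have hsub : Ioo ρ R ⊆ {s : ℝ | (s * Real.cos θ, s * Real.sin θ) ∈ closure Ω} :=
      fun s hs => subset_closure (hS.1 (hring s hs))
    have := (hclosed.closure_subset_iff.2 hsub) hmem
    rw [hq]
    exact this
  have hfr : q0 ∈ frontier Ω := ⟨hcl, fun h => hout (interior_subset h)⟩
  obtain ⟨t, ht, hneg⟩ := hEH Ω ν R t1 G a1 b1 a2 b2 a b m n hC ρ hρ hρR hS
  have hz1 := hC.z1 t q0 hfr
  have hz2 := hC.z2 t q0 hfr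
  have ha0 : a (t, q0) = 0 := by rw [hC.ha]; simp only; rw [hz1.1, hz2.1, sub_zero]
  have hb0 : b (t, q0) = 0 := by rw [hC.hb]; simp only; rw [hz1.2, hz2.2, sub_zero]
  have hca : Continuous a := by
    rw [hC.ha]
    exact hC.ca1.continuous.sub hC.ca2.continuous
  have hcb : Continuous b := by
    rw [hC.hb]
    exact hC.cb1.continuous.sub hC.cb2.continuous
  -- rotation invariance at `(ρ, 0)`
  have hrot : ∀ s : ℝ, rot (- -θ) (s, 0) = (s * Real.cos θ, s * Real.sin θ) := by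
    intro s
    unfold rot
    rw [neg_neg]
    refine Prod.ext ?_ ?_
    · show Real.cos θ * s - Real.sin θ * 0 = s * Real.cos θ
      ring
    · show Real.sin θ * s + Real.cos θ * 0 = s * Real.sin θ
      ring
  have hb : b (t, (ρ, 0)) = 0 := by
    have hclosed : IsClosed {s : ℝ | Real.sin (-θ) * a (t, (s * Real.cos θ, s * Real.sin θ)) +
        Real.cos (-θ) * b (t, (s * Real.cos θ, s * Real.sin θ)) = b (t, (s, 0))} := by
      refine isClosed_eq ?_ ?_
      · fun_prop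
      · fun_prop
    have hsub : Ioo ρ R ⊆ {s : ℝ | Real.sin (-θ) * a (t, (s * Real.cos θ, s * Real.sin θ)) +
        Real.cos (-θ) * b (t, (s * Real.cos θ, s * Real.sin θ)) = b (t, (s, 0))} := by
      intro s hs
      have h3 := (hS.2.2 (-θ) t ht (s, 0) (hring0 s hs)).2
      unfold rfb at h3
      simp only at h3
      rw [hrot] at h3
      exact h3
    have h4 := (hclosed.closure_subset_iff.2 hsub) hmem
    have h5 : Real.sin (-θ) * a (t, (ρ * Real.cos θ, ρ * Real.sin θ)) +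
        Real.cos (-θ) * b (t, (ρ * Real.cos θ, ρ * Real.sin θ)) = b (t, (ρ, 0)) := h4
    rw [← hq, ha0, hb0, mul_zero, mul_zero, add_zero] at h5
    exact h5.symm
  rw [hb, zero_mul] at hneg
  exact lt_irrefl _ hneg

end NS
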