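import Pool.Agent.helper29.NS.SpecE

/-! # ns:JM (helper46): jets of a product with a function of `s` -/

namespace NS

open MeasureTheory Filter Topology Set

theorem JM_py (f : ℝ → ℝ) (H : ℝ × ℝ → ℝ) (hf : Differentiable ℝ f) (hH : Differentiable ℝ H) :
    py (fun z : ℝ × ℝ => f z.1 * H z) = fun z => f z.1 * py H z := by
  funext z
  unfold py
  have h1 : HasFDerivAt (fun z : ℝ × ℝ => f z.1)
      ((fderiv ℝ f z.1).comp (ContinuousLinearMap.fst ℝ ℝ ℝ)) z :=
    HasFDerivAt.comp z (hf z.1).hasFDerivAt hasFDerivAt_fst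
  have h2 := h1.mul (hH z).hasFDerivAt
  have h3 : fderiv ℝ (fun z : ℝ × ℝ => f z.1 * H z) z =
      f z.1 • fderiv ℝ H z + H z • (fderiv ℝ f z.1).comp (ContinuousLinearMap.fst ℝ ℝ ℝ) :=
    h2.fderiv
  rw [h3]
  simp

theorem JM_main (f : ℝ → ℝ) : ∀ (j k : ℕ), j ≤ k → ContDiff ℝ k f → ∀ (H : ℝ × ℝ → ℝ),
    ContDiff ℝ k H → ∀ z, (py^[j] (fun z : ℝ × ℝ => f z.1 * H z)) z = f z.1 * (py^[j] H) z := by
  intro j
  induction j with
  | zero => intro k _ _ H _ z; rfl
  | succ j ih =>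
    intro k hk hf H hH z
    obtain ⟨k, rfl⟩ : ∃ k', k = k' + 1 := ⟨k - 1, by omega⟩
    have h1 : ((1 : ℕ) : WithTop ℕ∞) ≤ ((k + 1 : ℕ) : WithTop ℕ∞) := by
      exact_mod_cast Nat.succ_le_succ (Nat.zero_le k)
    have hfd : Differentiable ℝ f := hf.differentiable (by
      intro h0
      have : k + 1 = 0 := by exact_mod_cast h0
      omega)
    have hHd : Differentiable ℝ H := hH.differentiable (by
      intro h0
      have : k + 1 = 0 := by exact_mod_cast h0
      omega)
    rw [Function.iterate_succ_apply, Function.iterate_succ_apply, JM_py f H hfd hHd]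
    have h2 : ContDiff ℝ k (py H) := by
      have h3 : ContDiff ℝ k (fderiv ℝ H) := hH.fderiv_right (by push_cast; exact le_rfl)
      exact h3.clm_apply contDiff_const
    have h4 : ((k : ℕ) : WithTop ℕ∞) ≤ ((k + 1 : ℕ) : WithTop ℕ∞) := by
      exact_mod_cast Nat.le_succ k
    exact ih k (by omega) (hf.of_le h4) (py H) h2 z

theorem JM : JM_stmt := by
  intro k f H hf hH
  refine ⟨(hf.comp contDiff_fst).mul hH, fun j hj' s => ?_⟩
  unfold hj
  exact JM_main f j k hj' hf H hH (s, 0)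

end NS
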