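import Pool.Agent.helper42.NS.Spec

/-!
# Row nos:PTP (MP_abccb5_co): at most `t` points above `p` have a nonzero eigenspace
-/

set_option autoImplicit false

namespace Pool.Agent.helper42.NS

open Polynomial Matrix

/-- the pairing -/
theorem PTP_pair {t : ℕ} (H : Matrix (Fin t) (Fin t) ℤ) (hs : ∀ i j, H i j = H j i) (Q : Pt)
    (u : Fin t → KP Q) (hu : u ∈ EigK (KP Q) (lamP Q) H) (z : Fin t → ℤ) :
    ∑ j, ((H.mulVec z) j : KP Q) * u j = lamP Q * ∑ j, (z j : KP Q) * u j := by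
  rw [mem_EigK] at hu
  have h1 : ∀ j, ((H.mulVec z) j : KP Q) * u j = ∑ i, (z i : KP Q) * ((H i j : KP Q) * u j) := by
    intro j
    have h2 : (H.mulVec z) j = ∑ i, H j i * z i := rfl
    rw [h2, Int.cast_sum, Finset.sum_mul]
    apply Finset.sum_congr rfl
    intro i _
    rw [Int.cast_mul, hs j i]
    ring
  rw [Finset.sum_congr rfl fun j _ => h1 j, Finset.sum_comm, Finset.mul_sum]
  apply Finset.sum_congr rfl
  intro i _
  rw [← Finset.mul_sum, hu i]
  ring

theorem PTP_pow {t : ℕ} (H : Matrix (Fin t) (Fin t) ℤ) (hs : ∀ i j, H i j = H j i) (Q : Pt)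
    (u : Fin t → KP Q) (hu : u ∈ EigK (KP Q) (lamP Q) H) (z : Fin t → ℤ) (n : ℕ) :
    ∑ j, (((H ^ n).mulVec z) j : KP Q) * u j = lamP Q ^ n * ∑ j, (z j : KP Q) * u j := by
  induction n with
  | zero => rw [pow_zero, pow_zero, one_mul, Matrix.one_mulVec]
  | succ n ih =>
    rw [pow_succ', ← Matrix.mulVec_mulVec, PTP_pair H hs Q u hu, ih, pow_succ']
    ring

theorem PTP_poly {t : ℕ} (H : Matrix (Fin t) (Fin t) ℤ) (hs : ∀ i j, H i j = H j i) (Q : Pt)
    (u : Fin t → KP Q) (hu : u ∈ EigK (KP Q) (lamP Q) H) (z : Fin t → ℤ) (e : ℤ[X]) :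
    ∑ j, (((aeval H e).mulVec z) j : KP Q) * u j =
      Ideal.Quotient.mk Q.asIdeal e * ∑ j, (z j : KP Q) * u j := by
  induction e using Polynomial.induction_on' with
  | add p q hp hq =>
    rw [map_add, map_add, add_mul, ← hp, ← hq, ← Finset.sum_add_distrib]
    apply Finset.sum_congr rfl
    intro j _
    rw [Matrix.add_mulVec, Pi.add_apply, Int.cast_add, add_mul]
  | monomial n a =>
    have h1 : Ideal.Quotient.mk Q.asIdeal (monomial n a) = (a : KP Q) * lamP Q ^ n := by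
      rw [← C_mul_X_pow_eq_monomial, map_mul, map_pow]
      have h2 : (C a : ℤ[X]) = ((a : ℤ) : ℤ[X]) := by simp
      rw [h2, map_intCast]
      rfl
    have h3 : aeval H (monomial n a) = a • H ^ n := by
      rw [aeval_monomial, Algebra.smul_def]
    rw [h1, h3, mul_assoc, ← PTP_pow H hs Q u hu z n, Finset.mul_sum]
    apply Finset.sum_congr rfl
    intro j _
    rw [Matrix.smul_mulVec, Pi.smul_apply, smul_eq_mul, Int.cast_mul]
    ring

theorem PTP_u {t : ℕ} (H : Matrix (Fin t) (Fin t) ℤ) (P : Pt) (h : crk P H ≠ 0) :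
    ∃ u ∈ EigK (KP P) (lamP P) H, ∃ j, u j ≠ 0 := by
  by_contra hc
  push Not at hc
  apply h
  have h1 : EigK (KP P) (lamP P) H = ⊥ := by
    rw [Submodule.eq_bot_iff]
    intro u hu
    funext j
    exact hc u hu j
  have hP := P.isMaximal
  have : Nontrivial (KP P) := Ideal.Quotient.nontrivial_iff.mpr hP.ne_top
  unfold crk
  rw [h1]
  exact finrank_bot _ _

theorem PTP_sep (s : Finset Pt) (P : Pt) : ∃ e : ℤ[X], e ∉ P.asIdeal ∧ ∀ Q ∈ s, Q ≠ P → e ∈ Q.asIdeal := by
  classical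
  have h1 : ∀ Q : Pt, Q ≠ P → ∃ a : ℤ[X], a ∈ Q.asIdeal ∧ a ∉ P.asIdeal := by
    intro Q hQ
    by_contra hc
    push Not at hc
    have h2 : Q.asIdeal ≤ P.asIdeal := fun a ha => hc a ha
    have h3 : Q.asIdeal = P.asIdeal := Q.isMaximal.eq_of_le P.isMaximal.ne_top h2
    exact hQ (MaximalSpectrum.ext h3)
  choose! a ha using h1
  refine ⟨∏ Q ∈ s.erase P, a Q, ?_, ?_⟩
  · have hPp : P.asIdeal.IsPrime := P.isMaximal.isPrime
    intro h
    rw [hPp.prod_mem_iff] at h
    obtain ⟨Q, hQ, hQ'⟩ := h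
    exact (ha Q (Finset.ne_of_mem_erase hQ)).2 hQ'
  · intro Q hQ hQP
    exact Ideal.mem_of_dvd _ (Finset.dvd_prod_of_mem a (Finset.mem_erase.mpr ⟨hQP, hQ⟩)) (ha Q hQP).1

theorem PTP : PTP_stmt := by
  classical
  intro t H p hp hs s hS
  have hfact : Fact p.Prime := ⟨hp⟩
  have hu : ∀ P : s, ∃ u ∈ EigK (KP (P : Pt)) (lamP (P : Pt)) H, ∃ j, u j ≠ 0 :=
    fun P => PTP_u H P (hS P P.2).2
  choose u hu1 j hj using hu
  choose e he1 he2 using fun P : s => PTP_sep s (P : Pt)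
  obtain ⟨w, hw⟩ : ∃ w : s → Fin t → ℤ, w = fun P => (aeval H (e P)).mulVec (Pi.single (j P) 1) := ⟨_, rfl⟩
  have hpair : ∀ P Q : s, ∑ i, ((w P i : ℤ) : KP (Q : Pt)) * u Q i =
      Ideal.Quotient.mk (Q : Pt).asIdeal (e P) * u Q (j P) := by
    intro P Q
    rw [hw]
    simp only
    rw [PTP_poly H hs Q (u Q) (hu1 Q)]
    congr 1
    rw [Finset.sum_eq_single (j P)]
    · rw [Pi.single_eq_same, Int.cast_one, one_mul]
    · intro i _ hi
      rw [Pi.single_eq_of_ne hi, Int.cast_zero, zero_mul]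
    · intro h
      exact absurd (Finset.mem_univ _) h
  have hlin : LinearIndependent (ZMod p) (fun P : s => fun i => ((w P i : ℤ) : ZMod p)) := by
    rw [Fintype.linearIndependent_iff]
    intro g hg Q
    have hQm : (Q : Pt).asIdeal.IsMaximal := (Q : Pt).isMaximal
    have hQp : (Q : Pt).asIdeal.IsPrime := hQm.isPrime
    have hnt : Nontrivial (KP (Q : Pt)) := Ideal.Quotient.nontrivial_iff.mpr hQm.ne_top
    have hp0 : ((p : ℕ) : KP (Q : Pt)) = 0 := by
      have h1 : ((p : ℕ) : ℤ[X]) ∈ (Q : Pt).asIdeal := (hS Q Q.2).1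
      have h2 := Ideal.Quotient.eq_zero_iff_mem.mpr h1
      rw [map_natCast] at h2
      exact h2
    have hch : CharP (KP (Q : Pt)) p := (CharP.charP_iff_prime_eq_zero hp).mpr hp0
    obtain ⟨φ, hφ⟩ : ∃ φ : ZMod p →+* KP (Q : Pt), φ = ZMod.castHom (dvd_refl p) (KP (Q : Pt)) := ⟨_, rfl⟩
    have h3 : ∀ i, ∑ P : s, g P * ((w P i : ℤ) : ZMod p) = 0 := by
      intro i
      have h4 := congrFun hg i
      rw [Finset.sum_apply] at h4
      simpa using h4
    have h5 : ∑ i, φ (∑ P : s, g P * ((w P i : ℤ) : ZMod p)) * u Q i = 0 := by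
      apply Finset.sum_eq_zero
      intro i _
      rw [h3 i, map_zero, zero_mul]
    have h6 : ∑ i, φ (∑ P : s, g P * ((w P i : ℤ) : ZMod p)) * u Q i =
        ∑ P : s, φ (g P) * (Ideal.Quotient.mk (Q : Pt).asIdeal (e P) * u Q (j P)) := by
      have h7 : ∀ i, φ (∑ P : s, g P * ((w P i : ℤ) : ZMod p)) * u Q i =
          ∑ P : s, φ (g P) * (((w P i : ℤ) : KP (Q : Pt)) * u Q i) := by
        intro i
        rw [map_sum, Finset.sum_mul]
        apply Finset.sum_congr rfl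
        intro P _
        rw [map_mul, map_intCast]
        ring
      rw [Finset.sum_congr rfl fun i _ => h7 i, Finset.sum_comm]
      apply Finset.sum_congr rfl
      intro P _
      rw [← Finset.mul_sum, hpair]
    rw [h6, Finset.sum_eq_single Q] at h5
    · rcases mul_eq_zero.mp h5 with h7 | h7
      · exact (map_eq_zero φ).mp h7
      · exfalso
        rcases mul_eq_zero.mp h7 with h8 | h8
        · exact he1 Q (Ideal.Quotient.eq_zero_iff_mem.mp h8)
        · exact hj Q h8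
    · intro P _ hPQ
      have h8 : e P ∈ (Q : Pt).asIdeal := he2 P Q Q.2 (fun h => hPQ (Subtype.ext h).symm)
      rw [Ideal.Quotient.eq_zero_iff_mem.mpr h8, zero_mul, mul_zero]
    · intro h
      exact absurd (Finset.mem_univ _) h
  have h1 := hlin.fintype_card_le_finrank
  rw [Fintype.card_coe, Module.finrank_fin_fun] at h1
  exact h1

end Pool.Agent.helper42.NS
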