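import Pool.Agent.helper42.NS.Spec2

/-!
# Row `nos2:HER`
-/

set_option autoImplicit false

namespace Pool.Agent.helper42.NS

open Polynomial Matrix

theorem HER_finite (t : ℕ) : {H : Matrix (Fin t) (Fin t) ℤ | IsGr H}.Finite := by
  classical
  apply (Set.finite_range (fun B : Fin t → Fin t → Bool =>
    (Matrix.of fun i j => if B i j then (1 : ℤ) else 0))).subset
  intro H hH
  refine ⟨fun i j => decide (H i j = 1), ?_⟩
  ext i j
  rcases hH.1 i j with h | h
  · simp [h]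
  · simp [h]

theorem HER_bord {m : ℕ} {H : Matrix (Fin (m + 1)) (Fin (m + 1)) ℤ} (h : IsGr H) :
    ∃ b : Fin m → Bool, bord (tl H) (ind b) = H := by
  classical
  refine ⟨fun j => decide (H 0 j.succ = 1), ?_⟩
  have hb : ∀ j : Fin m, ind (fun j => decide (H 0 j.succ = 1)) j = H 0 j.succ := by
    intro j
    rcases h.1 0 j.succ with h1 | h1
    · simp [ind, h1]
    · simp [ind, h1]
  ext i j
  refine Fin.cases ?_ (fun i => ?_) i
  · refine Fin.cases ?_ (fun j => ?_) j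
    · rw [bord_zero_zero, h.2.1 0]
    · rw [bord_zero_succ, hb]
  · refine Fin.cases ?_ (fun j => ?_) j
    · rw [bord_succ_zero, hb, h.2.2 0]
    · rw [bord_succ_succ]; rfl

theorem HER_tl {m : ℕ} {H : Matrix (Fin (m + 1)) (Fin (m + 1)) ℤ} (h : IsGr H) : IsGr (tl H) :=
  ⟨fun i j => h.1 i.succ j.succ, fun i => h.2.1 i.succ, fun i j => h.2.2 i.succ j.succ⟩

theorem HER_card {m : ℕ} (A : Matrix (Fin m) (Fin m) ℤ → Prop) :
    Set.ncard {H : Matrix (Fin (m + 1)) (Fin (m + 1)) ℤ | IsGr H ∧ A (tl H)} ≤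
      cnt m A * 2 ^ m := by
  classical
  have hfin : ({H : Matrix (Fin m) (Fin m) ℤ | IsGr H ∧ A H} ×ˢ
      (Set.univ : Set (Fin m → Bool))).Finite :=
    ((HER_finite m).subset fun H h => h.1).prod Set.finite_univ
  have hsub : {H : Matrix (Fin (m + 1)) (Fin (m + 1)) ℤ | IsGr H ∧ A (tl H)} ⊆
      (fun p : Matrix (Fin m) (Fin m) ℤ × (Fin m → Bool) => bord p.1 (ind p.2)) ''
        ({H : Matrix (Fin m) (Fin m) ℤ | IsGr H ∧ A H} ×ˢ (Set.univ : Set (Fin m → Bool))) := by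
    rintro H ⟨h1, h2⟩
    obtain ⟨b, hb⟩ := HER_bord h1
    exact ⟨(tl H, b), ⟨⟨HER_tl h1, h2⟩, Set.mem_univ _⟩, hb⟩
  calc Set.ncard {H : Matrix (Fin (m + 1)) (Fin (m + 1)) ℤ | IsGr H ∧ A (tl H)}
      ≤ _ := Set.ncard_le_ncard hsub (hfin.image _)
    _ ≤ _ := Set.ncard_image_le hfin
    _ = cnt m A * 2 ^ m := by
        rw [Set.ncard_prod, Set.ncard_univ]
        unfold cnt
        simp

theorem HER : HER_stmt := by
  intro Q ε m
  induction m with
  | zero =>
    intro h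
    have := h 0 le_rfl
    simpa [Hered] using this
  | succ m ih =>
    intro h
    have ih' := ih (fun t ht => h t (by omega))
    have h1 := h (m + 1) le_rfl
    have hle : cnt (m + 1) (fun H => ¬ Hered Q (m + 1) H) ≤
        cnt (m + 1) (fun H => ¬ Q (m + 1) H) + cnt m (fun H => ¬ Hered Q m H) * 2 ^ m := by
      have h2 : {H : Matrix (Fin (m + 1)) (Fin (m + 1)) ℤ | IsGr H ∧ ¬ Hered Q (m + 1) H} ⊆
          {H | IsGr H ∧ ¬ Q (m + 1) H} ∪ {H | IsGr H ∧ ¬ Hered Q m (tl H)} := by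
        rintro H ⟨h3, h4⟩
        by_cases h5 : Q (m + 1) H
        · right
          exact ⟨h3, fun h6 => h4 ⟨h5, h6⟩⟩
        · left
          exact ⟨h3, h5⟩
      have h3 : ({H : Matrix (Fin (m + 1)) (Fin (m + 1)) ℤ | IsGr H ∧ ¬ Q (m + 1) H} ∪
          {H | IsGr H ∧ ¬ Hered Q m (tl H)}).Finite :=
        ((HER_finite (m + 1)).subset fun H h => h.1).union
          ((HER_finite (m + 1)).subset fun H h => h.1)
      calc cnt (m + 1) (fun H => ¬ Hered Q (m + 1) H) ≤ _ := Set.ncard_le_ncard h2 h3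
        _ ≤ _ := Set.ncard_union_le _ _
        _ ≤ _ := Nat.add_le_add_left (HER_card fun H => ¬ Hered Q m H) _
    have hle' : (cnt (m + 1) (fun H => ¬ Hered Q (m + 1) H) : ℝ) ≤
        cnt (m + 1) (fun H => ¬ Q (m + 1) H) + cnt m (fun H => ¬ Hered Q m H) * 2 ^ m := by
      exact_mod_cast hle
    have hch : (m + 1).choose 2 = m.choose 2 + m := by
      rw [Nat.choose_succ_succ' m 1, Nat.choose_one_right, add_comm]
    rw [Finset.sum_range_succ, add_mul]
    have h5 : (cnt m (fun H => ¬ Hered Q m H) : ℝ) * 2 ^ m ≤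
        (∑ t ∈ Finset.range (m + 1), ε t) * 2 ^ ((m + 1).choose 2) := by
      rw [hch, pow_add, ← mul_assoc]
      exact mul_le_mul_of_nonneg_right ih' (by positivity)
    linarith

end Pool.Agent.helper42.NS
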