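import Pool.Agent.helper42.NS.Spec2

/-!
# Row `nos2:R2C`
-/

set_option autoImplicit false

namespace Pool.Agent.helper42.NS

open Polynomial Matrix

theorem R2C_finite (t : ℕ) : {H : Matrix (Fin t) (Fin t) ℤ | IsGr H}.Finite := by
  classical
  apply (Set.finite_range (fun B : Fin t → Fin t → Bool =>
    (Matrix.of fun i j => if B i j then (1 : ℤ) else 0))).subset
  intro H hH
  refine ⟨fun i j => decide (H i j = 1), ?_⟩
  ext i j
  rcases hH.1 i j with h | h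
  · simp [h]
  · simp [h]

theorem R2C_union {ι β : Type*} (I : Finset ι) (Z : ι → Set β) (W : Set β) (m K : ℕ)
    (hfin : ∀ i ∈ I, (Z i).Finite) (hsub : W ⊆ ⋃ i ∈ I, Z i)
    (h : ∀ i ∈ I, (Z i).ncard * m ≤ K) : W.ncard * m ≤ I.card * K := by
  have h1 : (⋃ i ∈ I, Z i).Finite := Set.Finite.biUnion I.finite_toSet hfin
  calc W.ncard * m ≤ (⋃ i ∈ I, Z i).ncard * m :=
        Nat.mul_le_mul_right _ (Set.ncard_le_ncard hsub h1)
    _ ≤ (∑ i ∈ I, (Z i).ncard) * m := Nat.mul_le_mul_right _ (Finset.set_ncard_biUnion_le I Z)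
    _ = ∑ i ∈ I, (Z i).ncard * m := Finset.sum_mul _ _ _
    _ ≤ ∑ _i ∈ I, K := Finset.sum_le_sum h
    _ = I.card * K := by rw [Finset.sum_const, smul_eq_mul]

/-- the polynomials with given coefficients -/
noncomputable def R2C_gg {t : ℕ} (p D : ℕ) (S : Finset (Fin t)) (c : S → Fin D → ZMod p)
    (s : Fin t) : (ZMod p)[X] := by
  classical
  exact if h : s ∈ S then (((degreeLTEquiv (ZMod p) D).symm (c ⟨s, h⟩) :
    degreeLT (ZMod p) D) : (ZMod p)[X]) else 0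

theorem R2C_gg_deg {t : ℕ} (p D : ℕ) (S : Finset (Fin t)) (c : S → Fin D → ZMod p)
    (s : Fin t) : (R2C_gg p D S c s).degree < D := by
  unfold R2C_gg
  split_ifs with h
  · exact mem_degreeLT.1 (Subtype.property _)
  · rw [degree_zero]; exact WithBot.bot_lt_coe D

theorem R2C_gg_surj {t : ℕ} (p D : ℕ) (S : Finset (Fin t)) (g : Fin t → (ZMod p)[X])
    (hg : ∀ s, (g s).degree < D) :
    ∃ c : S → Fin D → ZMod p, ∀ s ∈ S, R2C_gg p D S c s = g s := by
  refine ⟨fun s => degreeLTEquiv (ZMod p) D ⟨g s, mem_degreeLT.2 (hg s)⟩, fun s hs => ?_⟩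
  unfold R2C_gg
  rw [dif_pos hs, LinearEquiv.symm_apply_apply]

theorem R2C_S (h3 : R2E_stmt) (t p D C m M : ℕ) (S : Finset (Fin t)) (hp : p.Prime)
    (hm : m = 2 ^ (t - S.card)) (hM : M = 2 ^ (t.choose 2) * 2 ^ (D * (C + 2 * S.card))) :
    Set.ncard {H : Matrix (Fin t) (Fin t) ℤ | IsGr H ∧ (∀ P : Pt, Above p P → crk P H ≤ C) ∧
      ∃ g : Fin t → (ZMod p)[X], (∃ s ∈ S, g s ≠ 0) ∧ (∀ s, (g s).degree < D) ∧ Rel p H S g} *
      m ≤ (p ^ D) ^ S.card * M := by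
  classical
  have : NeZero p := ⟨hp.ne_zero⟩
  have hcard : (Finset.univ : Finset (S → Fin D → ZMod p)).card = (p ^ D) ^ S.card := by
    rw [Finset.card_univ]
    simp [ZMod.card]
  rw [← hcard]
  refine R2C_union Finset.univ (fun c : S → Fin D → ZMod p =>
    {H : Matrix (Fin t) (Fin t) ℤ | IsGr H ∧ ((∃ s ∈ S, R2C_gg p D S c s ≠ 0) ∧
      (∀ P : Pt, Above p P → crk P H ≤ C) ∧ Rel p H S (R2C_gg p D S c))}) _ m M ?_ ?_ ?_
  · intro c _
    exact (R2C_finite t).subset fun H h => h.1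
  · rintro H ⟨h1, h2, g, ⟨s, hs, hgs⟩, hgd, hrel⟩
    obtain ⟨c, hc⟩ := R2C_gg_surj p D S g hgd
    rw [Set.mem_iUnion₂]
    refine ⟨c, Finset.mem_univ _, h1, ⟨s, hs, by rw [hc s hs]; exact hgs⟩, h2, ?_⟩
    unfold Rel at hrel ⊢
    rw [← hrel]
    exact Finset.sum_congr rfl fun s hs => by rw [hc s hs]
  · intro c _
    by_cases hne : ∃ s ∈ S, R2C_gg p D S c s ≠ 0
    · obtain ⟨s, hs, hgs⟩ := hne
      have h4 := h3 t p D C S s (R2C_gg p D S c) hp hs hgs (R2C_gg_deg p D S c)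
      rw [← hm, ← hM] at h4
      refine le_trans (Nat.mul_le_mul_right _ ?_) h4
      unfold cnt
      apply Set.ncard_le_ncard _ ((R2C_finite t).subset fun H h => h.1)
      rintro H ⟨h5, -, h6, h7⟩
      exact ⟨h5, h6, h7⟩
    · have : {H : Matrix (Fin t) (Fin t) ℤ | IsGr H ∧ ((∃ s ∈ S, R2C_gg p D S c s ≠ 0) ∧
          (∀ P : Pt, Above p P → crk P H ≤ C) ∧ Rel p H S (R2C_gg p D S c))} = ∅ := by
        ext H
        simp only [Set.mem_ofPred_eq, Set.mem_empty_iff_false, iff_false]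
        rintro ⟨-, h5, -⟩
        exact hne h5
      rw [this]
      simp

theorem R2C_p (h3 : R2E_stmt) (t p D C τ m M : ℕ) (hp : p.Prime)
    (hm : m = 2 ^ (t - τ)) (hM : M = 2 ^ (t.choose 2) * 2 ^ (D * (C + 2 * τ))) :
    Set.ncard {H : Matrix (Fin t) (Fin t) ℤ | IsGr H ∧ (∀ P : Pt, Above p P → crk P H ≤ C) ∧
      ∃ S : Finset (Fin t), S.card = τ ∧
      ∃ g : Fin t → (ZMod p)[X], (∃ s ∈ S, g s ≠ 0) ∧ (∀ s, (g s).degree < D) ∧ Rel p H S g} *
      m ≤ (t.choose τ) * ((p ^ D) ^ τ * M) := by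
  classical
  have hcard : (Finset.powersetCard τ (Finset.univ : Finset (Fin t))).card = t.choose τ := by
    rw [Finset.card_powersetCard, Finset.card_univ, Fintype.card_fin]
  rw [← hcard]
  refine R2C_union (Finset.powersetCard τ (Finset.univ : Finset (Fin t)))
    (fun S => {H : Matrix (Fin t) (Fin t) ℤ | IsGr H ∧ (∀ P : Pt, Above p P → crk P H ≤ C) ∧
      ∃ g : Fin t → (ZMod p)[X], (∃ s ∈ S, g s ≠ 0) ∧ (∀ s, (g s).degree < D) ∧
        Rel p H S g}) _ m _ ?_ ?_ ?_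
  · intro S _
    exact (R2C_finite t).subset fun H h => h.1
  · rintro H ⟨h1, h2, S, hS, hg⟩
    rw [Set.mem_iUnion₂]
    exact ⟨S, Finset.mem_powersetCard.2 ⟨Finset.subset_univ _, hS⟩, h1, h2, hg⟩
  · intro S hS
    have hS' := (Finset.mem_powersetCard.1 hS).2
    have := R2C_S h3 t p D C m M S hp (by rw [hS']; exact hm) (by rw [hS']; exact hM)
    rw [hS'] at this
    exact this

theorem R2C_num1 (a : ℕ) (ha : 6 ≤ a) : 180 * a ^ 2 + 130 * a + 2 ≤ 2 ^ (3 * a - 1) := by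
  induction a, ha using Nat.le_induction with
  | base => norm_num
  | succ n hn ih =>
    have e : 3 * (n + 1) - 1 = (3 * n - 1) + 3 := by omega
    rw [e, pow_add]
    have h1 : n ≤ n ^ 2 := by nlinarith
    nlinarith

theorem R2C_num2 (a : ℕ) (ha : 6 ≤ a) : 3000 * a ^ 2 + 1094 * a ≤ 2 ^ (7 * a) := by
  induction a, ha using Nat.le_induction with
  | base => norm_num
  | succ n hn ih =>
    have e : 7 * (n + 1) = 7 * n + 7 := by ring
    rw [e, pow_add]
    have h1 : n ≤ n ^ 2 := by nlinarith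
    nlinarith

theorem R2C (h1 : FIN_stmt) (h2 : R2A_stmt) (h3 : R2E_stmt) : R2C_stmt := by
  classical
  intro a t ha ht1 ht2
  obtain ⟨τ, hτ⟩ : ∃ τ : ℕ, τ = 2 ^ (7 * a) := ⟨_, rfl⟩
  have hτt : τ ≤ t := by
    rw [hτ]
    exact le_trans (Nat.pow_le_pow_right (by norm_num) (by omega)) ht1
  obtain ⟨m, hm⟩ : ∃ m : ℕ, m = 2 ^ (t - τ) := ⟨_, rfl⟩
  obtain ⟨M, hM⟩ : ∃ M : ℕ, M = 2 ^ (t.choose 2) * 2 ^ (60 * a * (50 * a + 18 + 2 * τ)) :=
    ⟨_, rfl⟩
  have hmain : cnt t (fun H => Good (10 * a + 3) H ∧ ¬ R2 a H) * m ≤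
      ((Finset.range (2 ^ (3 * a))).filter Nat.Prime).card *
        (2 ^ (10 * a * τ) * (2 ^ (180 * a ^ 2 * τ) * M)) := by
    unfold cnt
    refine R2C_union ((Finset.range (2 ^ (3 * a))).filter Nat.Prime)
      (fun p => {H : Matrix (Fin t) (Fin t) ℤ | IsGr H ∧
        (∀ P : Pt, Above p P → crk P H ≤ 50 * a + 18) ∧
        ∃ S : Finset (Fin t), S.card = τ ∧
        ∃ g : Fin t → (ZMod p)[X], (∃ s ∈ S, g s ≠ 0) ∧ (∀ s, (g s).degree < (60 * a : ℕ)) ∧
          Rel p H S g}) _ m _ ?_ ?_ ?_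
    · intro S _
      exact (R2C_finite t).subset fun H h => h.1
    · rintro H ⟨hgr, hgood, hR2⟩
      unfold R2 at hR2
      push Not at hR2
      obtain ⟨P, p, hp, hab, hplt, hq, φ, hφ, y, hy, hy0, hsp⟩ := hR2
      have hfin : {j | φ (y j) ≠ 0}.Finite := Set.toFinite _
      obtain ⟨S, hS1, hS2⟩ := Finset.exists_superset_card_eq (s := hfin.toFinset) (n := τ)
        (by rw [← Set.ncard_eq_toFinset_card _ hfin, hτ]; exact hsp)
        (by rw [Fintype.card_fin]; exact hτt)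
      obtain ⟨g, hg1, hg2, hg3⟩ := h2 t p (60 * a) P H y φ S hp hab hq hφ hy hy0 (by
        intro j hj
        by_contra hcon
        exact hj (hS1 (hfin.mem_toFinset.2 hcon)))
      rw [Set.mem_iUnion₂]
      refine ⟨p, Finset.mem_filter.2 ⟨Finset.mem_range.2 hplt, hp⟩, hgr, ?_, S, hS2, g, hg1,
        hg2, hg3⟩
      intro P' _
      have := (hgood P').2
      omega
    · intro p hp
      obtain ⟨hp1, hp2⟩ := Finset.mem_filter.1 hp
      rw [Finset.mem_range] at hp1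
      have h4 := R2C_p h3 t p (60 * a) (50 * a + 18) τ m M hp2 hm hM
      refine h4.trans ?_
      apply Nat.mul_le_mul
      · calc t.choose τ ≤ t ^ τ := Nat.choose_le_pow t τ
          _ ≤ (2 ^ (10 * a)) ^ τ := Nat.pow_le_pow_left ht2 τ
          _ = 2 ^ (10 * a * τ) := (pow_mul _ _ _).symm
      · apply Nat.mul_le_mul_right
        calc (p ^ (60 * a)) ^ τ ≤ ((2 ^ (3 * a)) ^ (60 * a)) ^ τ :=
              Nat.pow_le_pow_left (Nat.pow_le_pow_left hp1.le _) _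
          _ = 2 ^ (180 * a ^ 2 * τ) := by
              rw [← pow_mul, ← pow_mul]; congr 1; ring
  have hI : ((Finset.range (2 ^ (3 * a))).filter Nat.Prime).card ≤ 2 ^ (3 * a) :=
    (Finset.card_filter_le _ _).trans (by rw [Finset.card_range])
  have hexp : 11 * a + (3 * a + (10 * a * τ + (180 * a ^ 2 * τ +
      60 * a * (50 * a + 18 + 2 * τ)))) ≤ t - τ := by
    have n1 := R2C_num1 a ha
    have n2 := R2C_num2 a ha
    rw [← hτ] at n2
    have n3 : τ * 2 ^ (3 * a - 1) ≤ t := by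
      have : τ * 2 ^ (3 * a - 1) = 2 ^ (10 * a - 1) := by
        rw [hτ, ← pow_add]; congr 1; omega
      rw [this]; exact ht1
    have n4 : τ * (180 * a ^ 2 + 130 * a + 2) ≤ t := (Nat.mul_le_mul_left _ n1).trans n3
    have n5 : 11 * a + (3 * a + (10 * a * τ + (180 * a ^ 2 * τ +
      60 * a * (50 * a + 18 + 2 * τ)))) + τ ≤ t := by
      calc _ = (3000 * a ^ 2 + 1094 * a) + τ * (180 * a ^ 2 + 130 * a + 1) := by ring
        _ ≤ τ + τ * (180 * a ^ 2 + 130 * a + 1) := Nat.add_le_add_right n2 _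
        _ = τ * (180 * a ^ 2 + 130 * a + 2) := by ring
        _ ≤ t := n4
    omega
  have hpos : 0 < m := by rw [hm]; positivity
  apply Nat.le_of_mul_le_mul_right _ hpos
  calc cnt t (fun H => Good (10 * a + 3) H ∧ ¬ R2 a H) * 2 ^ (11 * a) * m
      = 2 ^ (11 * a) * (cnt t (fun H => Good (10 * a + 3) H ∧ ¬ R2 a H) * m) := by ring
    _ ≤ 2 ^ (11 * a) * (2 ^ (3 * a) * (2 ^ (10 * a * τ) * (2 ^ (180 * a ^ 2 * τ) * M))) :=
        Nat.mul_le_mul_left _ (hmain.trans (Nat.mul_le_mul_right _ hI))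
    _ = 2 ^ (t.choose 2) * 2 ^ (11 * a + (3 * a + (10 * a * τ + (180 * a ^ 2 * τ +
      60 * a * (50 * a + 18 + 2 * τ))))) := by
        rw [hM]
        simp only [pow_add]
        ring
    _ ≤ 2 ^ (t.choose 2) * m := by
        rw [hm]
        exact Nat.mul_le_mul_left _ (Nat.pow_le_pow_right (by norm_num) hexp)

end Pool.Agent.helper42.NS
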