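import Pool.Agent.helper29.NS.SpecE

/-! # ns:JN (helper46): jets of `Lf` and `Mf` -/

namespace NS

open MeasureTheory Filter Topology Set

theorem JN_px (n : ℕ) (H : ℝ × ℝ → ℝ) (h : ContDiff ℝ (n + 1 : ℕ) H) : ContDiff ℝ n (px H) := by
  have h1 : ContDiff ℝ n (fderiv ℝ H) := h.fderiv_right (by push_cast; exact le_rfl)
  exact h1.clm_apply contDiff_const

theorem JN_py (n : ℕ) (H : ℝ × ℝ → ℝ) (h : ContDiff ℝ (n + 1 : ℕ) H) : ContDiff ℝ n (py H) := by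
  have h1 : ContDiff ℝ n (fderiv ℝ H) := h.fderiv_right (by push_cast; exact le_rfl)
  exact h1.clm_apply contDiff_const

theorem JN_deriv (n : ℕ) (f : ℝ → ℝ) (h : ContDiff ℝ (n + 1 : ℕ) f) : ContDiff ℝ n (deriv f) := by
  have h1 : ContDiff ℝ ((n : WithTop ℕ∞) + 1) f := by exact_mod_cast h
  exact (contDiff_succ_iff_deriv.1 h1).2.2

/-- four terms -/
theorem JN_four (hD : JD_stmt) (n : ℕ) (A B C D : ℝ × ℝ → ℝ) (hA : ContDiff ℝ n A)
    (hB : ContDiff ℝ n B) (hC : ContDiff ℝ n C) (hDD : ContDiff ℝ n D) :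
    ContDiff ℝ n (fun z => A z - B z - C z - D z) ∧
    ∀ j ≤ n, ∀ s, hj (fun z => A z - B z - C z - D z) j s =
      hj A j s - hj B j s - hj C j s - hj D j s := by
  have h1 : ContDiff ℝ n (fun z => A z - B z) := hA.sub hB
  have h2 : ContDiff ℝ n (fun z => A z - B z - C z) := h1.sub hC
  refine ⟨h2.sub hDD, fun j hj' s => ?_⟩
  obtain ⟨-, -, -, e1, -⟩ := hD n _ _ h2 hDD
  obtain ⟨-, -, -, e2, -⟩ := hD n _ _ h1 hC
  obtain ⟨-, -, -, e3, -⟩ := hD n _ _ hA hB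
  have e1' := e1 j hj' s
  have e2' := e2 j hj' s
  have e3' := e3 j hj' s
  rw [e1', e2', e3']

theorem JN (hD : JD_stmt) (hM : JM_stmt) : JN_stmt := by
  intro k f H K hf hH hK
  have f1 : ContDiff ℝ (k + 2 : ℕ) (deriv f) := JN_deriv (k + 2) f hf
  have f2 : ContDiff ℝ (k + 1 : ℕ) (deriv (deriv f)) := JN_deriv (k + 1) _ f1
  have le1 : ((k : ℕ) : WithTop ℕ∞) ≤ ((k + 1 : ℕ) : WithTop ℕ∞) := by exact_mod_cast Nat.le_succ k
  have le2 : ((k + 1 : ℕ) : WithTop ℕ∞) ≤ ((k + 2 : ℕ) : WithTop ℕ∞) := by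
    exact_mod_cast Nat.le_succ (k + 1)
  have g1 : ContDiff ℝ (k + 1 : ℕ) (fun s => 2 * deriv f s) := contDiff_const.mul (f1.of_le le2)
  have g2 : ContDiff ℝ (k + 1 : ℕ) (fun s => -(1 + deriv f s ^ 2)) :=
    (contDiff_const.add ((f1.of_le le2).pow 2)).neg
  have Hx := JN_px (k + 1) H hH
  have Hy := JN_py (k + 1) H hH
  have Hxx := JN_px k _ Hx
  have Hxy := JN_px k _ Hy
  have Hyy := JN_py k _ Hy
  have Ky := JN_py (k + 1) K hK
  obtain ⟨-, dx1, dy1, -, -⟩ := hD (k + 2) H K hH hK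
  obtain ⟨-, -, dyK, -, -⟩ := hD (k + 2) K H hK hH
  obtain ⟨-, dx2, -, -, -⟩ := hD (k + 1) (px H) (px H) Hx Hx
  obtain ⟨-, dx3, dy3, -, -⟩ := hD (k + 1) (py H) (py H) Hy Hy
  have fx1 : ∀ j < k + 2, hj (px H) j = deriv (hj H j) := fun j hj' => funext (dx1 j hj')
  have fy1 : ∀ j < k + 2, hj (py H) j = hj H (j + 1) := fun j hj' => funext (dy1 j hj')
  -- the terms
  obtain ⟨b1, b2⟩ := hM k (fun s => 2 * deriv f s) (px (py H)) (g1.of_le le1) Hxy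
  obtain ⟨c1, c2⟩ := hM k (deriv (deriv f)) (py H) (f2.of_le le1) (Hy.of_le le1)
  obtain ⟨d1, d2⟩ := hM k (fun s => -(1 + deriv f s ^ 2)) (py (py H)) (g2.of_le le1) Hyy
  obtain ⟨b3, b4⟩ := hM (k + 1) (fun s => 2 * deriv f s) (py H) g1 Hy
  obtain ⟨c3, c4⟩ := hM (k + 1) (deriv (deriv f)) K f2 (hK.of_le le2)
  obtain ⟨d3, d4⟩ := hM (k + 1) (fun s => -(1 + deriv f s ^ 2)) (py K) g2 Ky
  have eL : Lf f H = fun z => px (px H) z - (2 * deriv f z.1) * px (py H) z -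
      deriv (deriv f) z.1 * py H z - (-(1 + deriv f z.1 ^ 2)) * py (py H) z := by
    funext z
    unfold Lf
    ring
  have eM : Mf f H K = fun z => px H z - (2 * deriv f z.1) * py H z -
      deriv (deriv f) z.1 * K z - (-(1 + deriv f z.1 ^ 2)) * py K z := by
    funext z
    unfold Mf
    ring
  obtain ⟨r1, r2⟩ := JN_four hD k _ _ _ _ Hxx b1 c1 d1
  obtain ⟨r3, r4⟩ := JN_four hD (k + 1) _ _ _ _ Hx b3 c3 d3
  refine ⟨?_, ?_, ?_, ?_⟩
  · rw [eL]; exact r1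
  · rw [eM]; exact r3
  · intro j hj' s
    rw [eL, r2 j hj' s, b2 j hj' s, c2 j hj' s, d2 j hj' s, dx2 j (by omega) s, dx3 j (by omega) s,
      dy3 j (by omega) s, fx1 j (by omega), fy1 j (by omega), fy1 (j + 1) (by omega)]
    ring
  · intro j hj' s
    rw [eM, r4 j hj' s, b4 j hj' s, c4 j hj' s, d4 j hj' s, fx1 j (by omega), fy1 j (by omega),
      dyK j (by omega) s]
    ring

end NS
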