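import Pool.Agent.helper29.NS.SpecD
import Pool.Agent.helper52.NS.UB

/-!
# Project ns, module LU: unique continuation across an arc of the circle
-/

namespace NS

open MeasureTheory Filter Topology Set

theorem LU (hGL : GL_stmt) (hYI : YI_stmt) : LU_stmt := by
  intro ν R α β δ v w q1 hν hR hq1 hδ hv hw hz hheat t ht q hq hqR
  set D : Set (ℝ × ℝ) := {q | q.1 ^ 2 + q.2 ^ 2 < R ^ 2} with hD
  have hcont : Continuous fun q : ℝ × ℝ => q.1 ^ 2 + q.2 ^ 2 := by fun_prop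
  have hDo : IsOpen D := isOpen_lt hcont continuous_const
  set A : Set (ℝ × ℝ × ℝ) := univ ×ˢ D with hA
  set O : Set (ℝ × ℝ × ℝ) := Ioo α β ×ˢ Dsc q1 δ with hO
  have hAo : IsOpen A := isOpen_univ.prod hDo
  have hOo : IsOpen O := isOpen_Ioo.prod (UB_open q1 δ)
  have hfr : ∀ F ∈ ({v, w} : Set (ℝ × ℝ × ℝ → ℝ)), ∀ z ∈ frontier A ∩ O,
      F z = 0 ∧ fderiv ℝ F z = 0 ∧ fderiv ℝ (fderiv ℝ F) z = 0 := by
    rintro F hF ⟨t, q⟩ ⟨h1, h2⟩
    rw [hA, frontier_univ_prod_eq] at h1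
    have h3 : q ∈ frontier D := h1.2
    have h4 := frontier_lt_subset_eq hcont (continuous_const (y := R ^ 2)) h3
    exact hz t h2.1 q ⟨h4, h2.2⟩ F hF
  obtain ⟨gv1, gv2, gv3⟩ := hGL A O v hAo hOo hv (hfr v (by simp))
  obtain ⟨gw1, gw2, gw3⟩ := hGL A O w hAo hOo hw (hfr w (by simp))
  have key := hYI (Dsc q1 δ) α β ν 0 (A.indicator v) (A.indicator w) (UB_open q1 δ)
    (UB_conv q1 δ).isPreconnected hν gv1 gw1 (by
      intro t ht q hq
      have hzO : ((t, q) : ℝ × ℝ × ℝ) ∈ O := ⟨ht, hq⟩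
      have da := UB_der hOo hv gv1 gv2 gv3 hzO
      have db := UB_der hOo hw gw1 gw2 gw3 hzO
      by_cases hqD : q ∈ D
      · have hzA : ((t, q) : ℝ × ℝ × ℝ) ∈ A := ⟨mem_univ _, hqD⟩
        obtain ⟨a0, a1, a2, a3, a4, a5⟩ := da.1 hzA
        obtain ⟨b0, b1, b2, b3, b4, b5⟩ := db.1 hzA
        obtain ⟨h1, h2⟩ := hheat t ht q hq hqD
        unfold heat at h1 h2 ⊢
        rw [a1, a4, a5, b1, b4, b5, h1, h2]
        simp
      · have hzA : ((t, q) : ℝ × ℝ × ℝ) ∉ A := fun h => hqD h.2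
        obtain ⟨a0, a1, a2, a3, a4, a5⟩ := da.2 hzA
        obtain ⟨b0, b1, b2, b3, b4, b5⟩ := db.2 hzA
        unfold heat
        rw [a1, a4, a5, b1, b4, b5]
        simp)
    (by
      refine ⟨Dsc q1 δ ∩ {q | R ^ 2 < q.1 ^ 2 + q.2 ^ 2},
        (UB_open q1 δ).inter (isOpen_lt continuous_const hcont), ?_, inter_subset_left, ?_⟩
      · have hq1' : q1.1 ^ 2 + q1.2 ^ 2 = R ^ 2 := hq1
        have he : 0 < δ / (2 * R) := by positivity
        refine ⟨((1 + δ / (2 * R)) * q1.1, (1 + δ / (2 * R)) * q1.2), ?_, ?_⟩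
        · show ((1 + δ / (2 * R)) * q1.1 - q1.1) ^ 2 + ((1 + δ / (2 * R)) * q1.2 - q1.2) ^ 2 <
            δ ^ 2
          have e1 : ((1 + δ / (2 * R)) * q1.1 - q1.1) ^ 2 +
              ((1 + δ / (2 * R)) * q1.2 - q1.2) ^ 2 =
              (δ / (2 * R)) ^ 2 * (q1.1 ^ 2 + q1.2 ^ 2) := by ring
          rw [e1, hq1', ← mul_pow, show δ / (2 * R) * R = δ / 2 by field_simp]
          nlinarith
        · show R ^ 2 < ((1 + δ / (2 * R)) * q1.1) ^ 2 + ((1 + δ / (2 * R)) * q1.2) ^ 2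
          have e1 : ((1 + δ / (2 * R)) * q1.1) ^ 2 + ((1 + δ / (2 * R)) * q1.2) ^ 2 =
              (1 + δ / (2 * R)) ^ 2 * (q1.1 ^ 2 + q1.2 ^ 2) := by ring
          rw [e1, hq1']
          have hR2 : 0 < R ^ 2 := by positivity
          nlinarith [mul_pos he hR2, mul_pos (mul_pos he he) hR2]
      · rintro t - q ⟨-, hq⟩
        have hzA : ((t, q) : ℝ × ℝ × ℝ) ∉ A := fun h => by
          have h1 : q.1 ^ 2 + q.2 ^ 2 < R ^ 2 := h.2
          have h2 : R ^ 2 < q.1 ^ 2 + q.2 ^ 2 := hq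
          exact lt_asymm h1 h2
        exact ⟨Set.indicator_of_notMem hzA _, Set.indicator_of_notMem hzA _⟩)
  have hzA : ((t, q) : ℝ × ℝ × ℝ) ∈ A := ⟨mem_univ _, hqR⟩
  have := key t ht q hq
  rwa [Set.indicator_of_mem hzA, Set.indicator_of_mem hzA] at this

end NS
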