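import Pool.Agent.helper42.NS.Spec2

/-!
# Row `nos2:PSB`
-/

set_option autoImplicit false

namespace Pool.Agent.helper42.NS

open Polynomial Matrix

theorem PSB (h1 : VTX_stmt) (h2 : VT2_stmt) (h3 : FBB_stmt) : PSB_stmt := by
  classical
  intro a t P H ha hsym hR1 hR2 hq hc
  haveI : P.asIdeal.IsMaximal := P.isMaximal
  letI : Field (KP P) := Ideal.Quotient.field P.asIdeal
  obtain ⟨Δ, hΔ⟩ : ∃ Δ : ℕ, Δ = 2 ^ (a - 3) := ⟨_, rfl⟩
  obtain ⟨c, hcc⟩ : ∃ c : ℕ, c = crk P H := ⟨_, rfl⟩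
  rw [← hΔ, ← hcc]
  rw [← hcc] at hc
  have hΔ4 : 4 ≤ Δ := by
    rw [hΔ]
    calc 4 = 2 ^ 2 := by norm_num
      _ ≤ 2 ^ (a - 3) := Nat.pow_le_pow_right (by norm_num) (by omega)
  -- a nonzero eigenvector
  have hne : ∃ u ∈ EigK (KP P) (lamP P) H, u ≠ 0 := by
    by_contra hcon
    push Not at hcon
    have hbot : EigK (KP P) (lamP P) H = ⊥ := (Submodule.eq_bot_iff _).2 hcon
    have : crk P H = 0 := by
      unfold crk
      rw [hbot]
      exact finrank_bot _ _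
    omega
  obtain ⟨u, huE, hu0⟩ := hne
  obtain ⟨Bd, hBd⟩ : ∃ Bd : Finset (Fin t → Bool),
      Bd = Finset.univ.filter (fun b => dotb b u = 0) := ⟨_, rfl⟩
  have hcard : Bd.card * (Δ * 4) ≤ 2 ^ t := by
    have h4 := h3 a t P H u (by omega) hR1 hR2 hq huE hu0
    have h5 : Set.ncard {b : Fin t → Bool | dotb b u = 0} = Bd.card := by
      rw [← Set.ncard_coe_finset, hBd]
      congr 1
      ext b
      simp
    have h6 : 2 ^ (a - 1) = Δ * 4 := by
      rw [hΔ, show a - 1 = (a - 3) + 2 by omega, pow_add]; norm_num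
    rw [h5, h6] at h4
    exact h4
  have hb1 : ∀ b : Fin t → Bool, Δ ^ crk P (bord H (ind b)) ≤ Δ ^ (c + 1) := by
    intro b
    apply Nat.pow_le_pow_right (by omega)
    rw [hcc]
    exact (h1 (KP P) (lamP P) t H b hsym).1
  have hb2 : ∀ b : Fin t → Bool, dotb b u ≠ 0 → Δ ^ crk P (bord H (ind b)) ≤ Δ ^ (c - 1) := by
    intro b hb
    apply Nat.pow_le_pow_right (by omega)
    have := h2 (KP P) (lamP P) t H b hsym ⟨u, huE, hb⟩
    have h4 : crk P (bord H (ind b)) + 1 ≤ crk P H := this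
    omega
  have hsum : ∑ b : Fin t → Bool, Δ ^ crk P (bord H (ind b)) ≤
      Bd.card * Δ ^ (c + 1) + 2 ^ t * Δ ^ (c - 1) := by
    rw [← Finset.sum_filter_add_sum_filter_not Finset.univ (fun b : Fin t → Bool => dotb b u = 0)]
    apply add_le_add
    · rw [hBd]
      calc ∑ b ∈ Finset.univ.filter (fun b : Fin t → Bool => dotb b u = 0),
            Δ ^ crk P (bord H (ind b))
          ≤ ∑ _b ∈ Finset.univ.filter (fun b : Fin t → Bool => dotb b u = 0), Δ ^ (c + 1) :=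
            Finset.sum_le_sum fun b _ => hb1 b
        _ = _ := by rw [Finset.sum_const, smul_eq_mul]
    · calc ∑ b ∈ Finset.univ.filter (fun b : Fin t → Bool => ¬ dotb b u = 0),
            Δ ^ crk P (bord H (ind b))
          ≤ ∑ _b ∈ Finset.univ.filter (fun b : Fin t → Bool => ¬ dotb b u = 0), Δ ^ (c - 1) :=
            Finset.sum_le_sum fun b hb => hb2 b (Finset.mem_filter.1 hb).2
        _ = (Finset.univ.filter (fun b : Fin t → Bool => ¬ dotb b u = 0)).card * Δ ^ (c - 1) := by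
            rw [Finset.sum_const, smul_eq_mul]
        _ ≤ 2 ^ t * Δ ^ (c - 1) := by
            apply Nat.mul_le_mul_right
            calc (Finset.univ.filter (fun b : Fin t → Bool => ¬ dotb b u = 0)).card
                ≤ (Finset.univ : Finset (Fin t → Bool)).card := Finset.card_filter_le _ _
              _ = 2 ^ t := by simp
  obtain ⟨d, hd⟩ : ∃ d : ℕ, c = d + 1 := ⟨c - 1, by omega⟩
  subst hd
  rw [Nat.add_sub_cancel] at hsum
  have e1 : 4 * (Bd.card * Δ ^ (d + 1 + 1)) ≤ 2 ^ t * Δ ^ (d + 1) := by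
    calc 4 * (Bd.card * Δ ^ (d + 1 + 1)) = (Bd.card * (Δ * 4)) * Δ ^ (d + 1) := by ring
      _ ≤ 2 ^ t * Δ ^ (d + 1) := Nat.mul_le_mul_right _ hcard
  have e2 : 4 * (2 ^ t * Δ ^ d) ≤ 2 ^ t * Δ ^ (d + 1) := by
    calc 4 * (2 ^ t * Δ ^ d) ≤ Δ * (2 ^ t * Δ ^ d) := Nat.mul_le_mul_right _ hΔ4
      _ = 2 ^ t * Δ ^ (d + 1) := by ring
  omega

end Pool.Agent.helper42.NS
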